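import Mathlib
import Pool.Agent.Q1.M5.Defs

set_option autoImplicit false
open Finset

/-! Connectivity of unions of closed grid cells without the wired boundary labels (module M5, C2). -/

namespace Pool.Agent.H90.Q1

open Pool.Agent.H75.Perc Pool.Agent.H75.Four Pool.Agent.H49.Q1 Pool.Agent.Q1.M4 Pool.Agent.Q1.M5

lemma co_h {K : Finset (ℤ × ℤ)} {y a : ℤ} (n : ℕ)
    (h : ∀ i : ℤ, a ≤ i → i < a + n → ((2 * i + 1, 2 * y) : ℤ × ℤ) ∈ K) :
    Co K (a, y) (a + n, y) := by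
  induction n with
  | zero => simpa using Co.refl K (a, y)
  | succ n ih =>
    have h1 := ih (fun i h2 h3 => h i h2 (by push_cast; omega))
    refine Relation.ReflTransGen.tail h1 ⟨?_, ?_⟩
    · unfold IsUnit4
      simp only [Prod.ext_iff, Prod.fst_sub, Prod.snd_sub]
      push_cast
      omega
    · have h2 := h (a + n) (by omega) (by push_cast; omega)
      convert h2 using 1
      refine Prod.ext ?_ ?_ <;> simp only [Prod.mk_add_mk] <;> push_cast <;> ring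

lemma co_v {K : Finset (ℤ × ℤ)} {x a : ℤ} (n : ℕ)
    (h : ∀ i : ℤ, a ≤ i → i < a + n → ((2 * x, 2 * i + 1) : ℤ × ℤ) ∈ K) :
    Co K (x, a) (x, a + n) := by
  induction n with
  | zero => simpa using Co.refl K (x, a)
  | succ n ih =>
    have h1 := ih (fun i h2 h3 => h i h2 (by push_cast; omega))
    refine Relation.ReflTransGen.tail h1 ⟨?_, ?_⟩
    · unfold IsUnit4
      simp only [Prod.ext_iff, Prod.fst_sub, Prod.snd_sub]
      push_cast
      omega
    · have h2 := h (a + n) (by omega) (by push_cast; omega)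
      convert h2 using 1
      refine Prod.ext ?_ ?_ <;> simp only [Prod.mk_add_mk] <;> push_cast <;> ring

lemma co_h' {K : Finset (ℤ × ℤ)} {y a b : ℤ} (hab : a ≤ b)
    (h : ∀ i : ℤ, a ≤ i → i < b → ((2 * i + 1, 2 * y) : ℤ × ℤ) ∈ K) : Co K (a, y) (b, y) := by
  have h1 := co_h (K := K) (y := y) (a := a) (b - a).toNat
    (fun i h2 h3 => h i h2 (by omega))
  rwa [Int.toNat_of_nonneg (by omega), add_sub_cancel] at h1

lemma co_v' {K : Finset (ℤ × ℤ)} {x a b : ℤ} (hab : a ≤ b)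
    (h : ∀ i : ℤ, a ≤ i → i < b → ((2 * x, 2 * i + 1) : ℤ × ℤ) ∈ K) : Co K (x, a) (x, b) := by
  have h1 := co_v (K := K) (x := x) (a := a) (b - a).toNat
    (fun i h2 h3 => h i h2 (by omega))
  rwa [Int.toNat_of_nonneg (by omega), add_sub_cancel] at h1

/-- labels strictly inside the cell -/
noncomputable def Si (X Y : ℤ → ℤ) (c : Cell) : Finset (ℤ × ℤ) :=
  (gcell X Y c).filter (fun l => (2 * X c.1 < l.1 ∧ l.1 < 2 * X (c.1 + 1)) ∧
    (2 * Y c.2 < l.2 ∧ l.2 < 2 * Y (c.2 + 1)))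

lemma mem_gcell {X Y : ℤ → ℤ} {c : Cell} {l : ℤ × ℤ} : l ∈ gcell X Y c ↔
    (2 * X c.1 ≤ l.1 ∧ l.1 ≤ 2 * X (c.1 + 1)) ∧ (2 * Y c.2 ≤ l.2 ∧ l.2 ≤ 2 * Y (c.2 + 1)) ∧
      (l.1 + l.2) % 2 = 1 := by
  unfold gcell
  rw [mem_Bx]

lemma mem_Si {X Y : ℤ → ℤ} {c : Cell} {l : ℤ × ℤ} : l ∈ Si X Y c ↔
    (2 * X c.1 < l.1 ∧ l.1 < 2 * X (c.1 + 1)) ∧ (2 * Y c.2 < l.2 ∧ l.2 < 2 * Y (c.2 + 1)) ∧
      (l.1 + l.2) % 2 = 1 := by
  unfold Si
  rw [mem_filter, mem_gcell]
  constructor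
  · rintro ⟨⟨-, -, h⟩, h1, h2⟩; exact ⟨h1, h2, h⟩
  · rintro ⟨h1, h2, h⟩; exact ⟨⟨⟨h1.1.le, h1.2.le⟩, ⟨h2.1.le, h2.2.le⟩, h⟩, h1, h2⟩

/-- the centre of a cell -/
def ctr (X Y : ℤ → ℤ) (c : Cell) : ℤ × ℤ := (X c.1 + 1, Y c.2 + 1)

/-- corners of a cell -/
def IsCor (X Y : ℤ → ℤ) (c : Cell) (v : ℤ × ℤ) : Prop :=
  (v.1 = X c.1 ∨ v.1 = X (c.1 + 1)) ∧ (v.2 = Y c.2 ∨ v.2 = Y (c.2 + 1))

/-- the gaps of the cell are at least `2` -/
def Gp (X Y : ℤ → ℤ) (c : Cell) : Prop := X c.1 + 2 ≤ X (c.1 + 1) ∧ Y c.2 + 2 ≤ Y (c.2 + 1)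

lemma co_int {X Y : ℤ → ℤ} {c : Cell} (hg : Gp X Y c) {v : ℤ × ℤ}
    (h1 : X c.1 < v.1 ∧ v.1 < X (c.1 + 1)) (h2 : Y c.2 < v.2 ∧ v.2 < Y (c.2 + 1)) :
    Co (Si X Y c) (ctr X Y c) v := by
  unfold Gp at hg
  unfold ctr
  have a : Co (Si X Y c) (X c.1 + 1, Y c.2 + 1) (v.1, Y c.2 + 1) := by
    apply co_h' (by omega)
    intro i h3 h4
    rw [mem_Si]
    simp only
    omega
  have b : Co (Si X Y c) (v.1, Y c.2 + 1) (v.1, v.2) := by
    apply co_v' (by omega)
    intro i h3 h4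
    rw [mem_Si]
    simp only
    omega
  exact a.trans b

lemma ad_mk {K : Finset (ℤ × ℤ)} {u v : ℤ × ℤ} (h : IsUnit4 (v - u)) (h' : u + v ∈ K) : Co K u v :=
  Relation.ReflTransGen.single ⟨h, h'⟩

lemma co_bd {X Y : ℤ → ℤ} {c : Cell} (hg : Gp X Y c) {v : ℤ × ℤ} (hv : inRect X Y c v)
    (hn : ¬ IsCor X Y c v) : Co (Si X Y c) (ctr X Y c) v := by
  unfold inRect at hv
  unfold IsCor at hn
  unfold Gp at hg
  by_cases h1 : v.1 = X c.1
  · have h2 : Co (Si X Y c) (ctr X Y c) (v.1 + 1, v.2) :=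
      co_int hg (by simp only; omega) (by simp only; omega)
    refine h2.trans (ad_mk ?_ ?_)
    · unfold IsUnit4
      simp only [Prod.ext_iff, Prod.fst_sub, Prod.snd_sub]
      omega
    · rw [mem_Si]
      simp only [Prod.fst_add, Prod.snd_add]
      omega
  by_cases h2 : v.1 = X (c.1 + 1)
  · have h3 : Co (Si X Y c) (ctr X Y c) (v.1 - 1, v.2) :=
      co_int hg (by simp only; omega) (by simp only; omega)
    refine h3.trans (ad_mk ?_ ?_)
    · unfold IsUnit4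
      simp only [Prod.ext_iff, Prod.fst_sub, Prod.snd_sub]
      omega
    · rw [mem_Si]
      simp only [Prod.fst_add, Prod.snd_add]
      omega
  by_cases h3 : v.2 = Y c.2
  · have h4 : Co (Si X Y c) (ctr X Y c) (v.1, v.2 + 1) :=
      co_int hg (by simp only; omega) (by simp only; omega)
    refine h4.trans (ad_mk ?_ ?_)
    · unfold IsUnit4
      simp only [Prod.ext_iff, Prod.fst_sub, Prod.snd_sub]
      omega
    · rw [mem_Si]
      simp only [Prod.fst_add, Prod.snd_add]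
      omega
  by_cases h4 : v.2 = Y (c.2 + 1)
  · have h5 : Co (Si X Y c) (ctr X Y c) (v.1, v.2 - 1) :=
      co_int hg (by simp only; omega) (by simp only; omega)
    refine h5.trans (ad_mk ?_ ?_)
    · unfold IsUnit4
      simp only [Prod.ext_iff, Prod.fst_sub, Prod.snd_sub]
      omega
    · rw [mem_Si]
      simp only [Prod.fst_add, Prod.snd_add]
      omega
  exact co_int hg (by omega) (by omega)

/-- the ends of a label of the cell -/
lemma ends_in {X Y : ℤ → ℤ} {c : Cell} {l : ℤ × ℤ} (hl : l ∈ gcell X Y c) :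
    inRect X Y c (eu l) ∧ inRect X Y c (ev l) := by
  rw [mem_gcell] at hl
  unfold inRect eu ev
  simp only
  omega

/-- both ends of a label of the cell are joined to the centre -/
lemma co_lab {X Y : ℤ → ℤ} {c : Cell} (hg : Gp X Y c) {l : ℤ × ℤ} (hl : l ∈ gcell X Y c)
    {K : Finset (ℤ × ℤ)} (hK : Si X Y c ⊆ K) (hlK : l ∈ K) :
    Co K (ctr X Y c) (eu l) ∧ Co K (ctr X Y c) (ev l) := by
  have h0 := ends_in hl
  have hl' := mem_gcell.1 hl
  have h1 := PivAux.eu_ev (e := l) hl'.2.2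
  have huv : Co K (eu l) (ev l) := ad_mk h1.1 (by rw [h1.2]; exact hlK)
  by_cases hu : IsCor X Y c (eu l)
  · have hv : ¬ IsCor X Y c (ev l) := by
      unfold Gp at hg
      unfold IsCor at hu ⊢
      have h2 := unit_cases h1.1
      unfold inRect at h0
      omega
    have h2 := (co_bd hg h0.2 hv).mono hK
    exact ⟨h2.trans huv.symm, h2⟩
  · have h2 := (co_bd hg h0.1 hu).mono hK
    exact ⟨h2, h2.trans huv⟩

lemma lt_of_mono {X : ℤ → ℤ} (hX : StrictMono X) {a b : ℤ} (h1 : X a < X b) (h2 : X b < X (a + 1)) :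
    False := by
  rw [hX.lt_iff_lt] at h1 h2
  omega

lemma Si_not_WL {P : PType} {X Y : ℤ → ℤ} (hX : StrictMono X) (hY : StrictMono Y) {c : Cell}
    {l : ℤ × ℤ} (hl : l ∈ Si X Y c) : l ∉ WL P X Y := by
  intro h
  unfold Pool.Agent.Q1.M5.WL at h
  rw [mem_biUnion] at h
  obtain ⟨n, -, h⟩ := h
  unfold Pool.Agent.Q1.M5.sL at h
  rw [mem_filter] at h
  obtain ⟨-, h1, h2, h3, h4⟩ := h
  rw [mem_Si] at hl
  have h5 : (P.side n).2 % 4 = 0 ∨ (P.side n).2 % 4 = 1 ∨ (P.side n).2 % 4 = 2 ∨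
    (P.side n).2 % 4 = 3 := by omega
  rcases h5 with h5 | h5 | h5 | h5
  · have := h1 h5
    exact lt_of_mono hY (a := c.2) (b := (P.side n).1.2) (by omega) (by omega)
  · have := h2 h5
    exact lt_of_mono hX (a := c.1) (b := (P.side n).1.1 + 1) (by omega) (by omega)
  · have := h3 h5
    exact lt_of_mono hY (a := c.2) (b := (P.side n).1.2 + 1) (by omega) (by omega)
  · have := h4 h5
    exact lt_of_mono hX (a := c.1) (b := (P.side n).1.1) (by omega) (by omega)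

lemma Si_sub {P : PType} {X Y : ℤ → ℤ} (hX : StrictMono X) (hY : StrictMono Y) {t : Finset Cell}
    {c : Cell} (hc : c ∈ t) : Si X Y c ⊆ gs X Y t \ WL P X Y := by
  intro l hl
  refine mem_sdiff.2 ⟨gcell_sub_gs hc ?_, Si_not_WL hX hY hl⟩
  unfold Si at hl
  exact (mem_filter.1 hl).1

/-- neighbouring cells have joined centres -/
lemma ctr_adj {X Y : ℤ → ℤ} (hX : StrictMono X) (hY : StrictMono Y) {c : Cell} {k : ℤ}
    (h1 : Gp X Y c) (h2 : Gp X Y (c + H75.Perc.dir k)) :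
    Co (Si X Y c ∪ Si X Y (c + H75.Perc.dir k)) (ctr X Y c) (ctr X Y (c + H75.Perc.dir k)) := by
  have key : ∀ v : ℤ × ℤ, inRect X Y c v → ¬ IsCor X Y c v → inRect X Y (c + H75.Perc.dir k) v →
      ¬ IsCor X Y (c + H75.Perc.dir k) v →
      Co (Si X Y c ∪ Si X Y (c + H75.Perc.dir k)) (ctr X Y c) (ctr X Y (c + H75.Perc.dir k)) := by
    intro v a1 a2 a3 a4
    exact ((co_bd h1 a1 a2).mono subset_union_left).trans
      ((co_bd h2 a3 a4).mono subset_union_right).symm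
  unfold Gp at h1 h2
  unfold inRect IsCor at key
  have m1 : X (c.1 - 1) < X c.1 := hX (by omega)
  have m2 : Y (c.2 - 1) < Y c.2 := hY (by omega)
  have m3 : X (c.1 + 1) < X (c.1 + 1 + 1) := hX (by omega)
  have m4 : Y (c.2 + 1) < Y (c.2 + 1 + 1) := hY (by omega)
  rcases H75.Perc.dir_cases k with ⟨-, e⟩ | ⟨-, e⟩ | ⟨-, e⟩ | ⟨-, e⟩ <;> rw [e] at h2 key ⊢ <;>
    simp only [Prod.fst_add, Prod.snd_add, add_zero] at h2 key
  · refine key (X (c.1 + 1), Y c.2 + 1) ?_ ?_ ?_ ?_ <;> simp only <;> omega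
  · refine key (X c.1 + 1, Y (c.2 + 1)) ?_ ?_ ?_ ?_ <;> simp only <;> omega
  · have e1 : c.1 + -1 + 1 = c.1 := by ring
    rw [e1] at h2 key
    refine key (X c.1, Y c.2 + 1) ?_ ?_ ?_ ?_ <;> simp only <;>
      simp only [← sub_eq_add_neg] at * <;> omega
  · have e1 : c.2 + -1 + 1 = c.2 := by ring
    rw [e1] at h2 key
    refine key (X c.1 + 1, Y c.2) ?_ ?_ ?_ ?_ <;> simp only <;>
      simp only [← sub_eq_add_neg] at * <;> omega

/-- the centres of the cells of a connected set are joined off the wired labels -/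
lemma ctr_conn (P : PType) {X Y : ℤ → ℤ} (hX : StrictMono X) (hY : StrictMono Y) {t : Finset Cell}
    (hg : ∀ c ∈ t, Gp X Y c) {c d : Cell} (hc : c ∈ t)
    (h : Relation.ReflTransGen (fun a b => Adj4 a b ∧ b ∈ (t : Set Cell)) c d) :
    d ∈ t ∧ Co (gs X Y t \ WL P X Y) (ctr X Y c) (ctr X Y d) := by
  induction h with
  | refl => exact ⟨hc, Co.refl _ _⟩
  | @tail a b _ hab ih =>
    obtain ⟨ha, ih⟩ := ih
    obtain ⟨⟨k, rfl⟩, hb⟩ := hab
    have hb' : a + H75.Perc.dir k ∈ t := hb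
    refine ⟨hb', ih.trans ((ctr_adj hX hY (hg _ ha) (hg _ hb')).mono ?_)⟩
    exact union_subset (Si_sub hX hY ha) (Si_sub hX hY hb')

/-- the ends of a wired label are vertices of the wired arc -/
lemma ends_TV {P : PType} {X Y : ℤ → ℤ} (hX : StrictMono X) (hY : StrictMono Y) {l : ℤ × ℤ}
    (hl : l ∈ WL P X Y) : TV P X Y (eu l) ∧ TV P X Y (ev l) := by
  unfold Pool.Agent.Q1.M5.WL at hl
  rw [mem_biUnion] at hl
  obtain ⟨n, hn, hl⟩ := hl
  rw [mem_Ico] at hn
  unfold Pool.Agent.Q1.M5.sL at hl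
  rw [mem_filter] at hl
  obtain ⟨h0, h1, h2, h3, h4⟩ := hl
  have h5 := ends_in h0
  have h6 := (mem_gcell.1 h0).2.2
  have key : ∀ v, (v = eu l ∨ v = ev l) → sV X Y (P.side n) v := by
    intro v hv
    unfold sV onCell inB
    unfold inRect at h5
    unfold eu ev at h5 hv
    refine ⟨?_, fun h => ?_, fun h => ?_, fun h => ?_, fun h => ?_⟩
    · rcases hv with rfl | rfl
      · exact h5.1
      · exact h5.2
    · have := h1 h
      rcases hv with rfl | rfl <;> simp only <;> omega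
    · have := h2 h
      rcases hv with rfl | rfl <;> simp only <;> omega
    · have := h3 h
      rcases hv with rfl | rfl <;> simp only <;> omega
    · have := h4 h
      rcases hv with rfl | rfl <;> simp only <;> omega
  exact ⟨⟨n, hn.1, hn.2, key _ (Or.inl rfl)⟩, ⟨n, hn.1, hn.2, key _ (Or.inr rfl)⟩⟩

/-- a vertex of a closed cell which is not on the wired arc is joined to the centre -/
lemma co_vert {P : PType} {X Y : ℤ → ℤ} (hX : StrictMono X) (hY : StrictMono Y) {t : Finset Cell}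
    (hg : ∀ c ∈ t, Gp X Y c) {c : Cell} (hc : c ∈ t) {v : ℤ × ℤ} (hv : inRect X Y c v)
    (hT : ¬ TV P X Y v) : Co (gs X Y t \ WL P X Y) (ctr X Y c) v := by
  by_cases hn : IsCor X Y c v
  · have hgc := hg c hc
    have key : ∀ l : ℤ × ℤ, l ∈ gcell X Y c → (v = eu l ∨ v = ev l) →
        Co (gs X Y t \ WL P X Y) (ctr X Y c) v := by
      intro l hl hvl
      have hW : l ∉ WL P X Y := by
        intro h
        have h1 := ends_TV hX hY h
        rcases hvl with h2 | h2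
        · exact hT (h2 ▸ h1.1)
        · exact hT (h2 ▸ h1.2)
      have h1 := co_lab hgc hl (Si_sub (P := P) hX hY hc)
        (mem_sdiff.2 ⟨gcell_sub_gs hc hl, hW⟩)
      rcases hvl with h2 | h2
      · rw [h2]; exact h1.1
      · rw [h2]; exact h1.2
    unfold IsCor at hn
    unfold inRect at hv
    unfold Gp at hgc
    rcases hn.1 with h1 | h1
    · refine key (2 * v.1 + 1, 2 * v.2) ?_ ?_
      · rw [mem_gcell]
        simp only
        omega
      · left
        unfold eu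
        refine Prod.ext ?_ ?_ <;> simp only <;> omega
    · refine key (2 * v.1 - 1, 2 * v.2) ?_ ?_
      · rw [mem_gcell]
        simp only
        omega
      · right
        unfold ev
        refine Prod.ext ?_ ?_ <;> simp only <;> omega
  · exact (co_bd (hg c hc) hv hn).mono (Si_sub hX hY hc)

/-- **Connected sets of cells stay connected without the wired labels.** -/
theorem cells_conn {P : PType} {X Y : ℤ → ℤ} (hX : StrictMono X) (hY : StrictMono Y)
    {t : Finset Cell} (hg : ∀ c ∈ t, Gp X Y c) (ht : Conn4 (t : Set Cell)) {v : ℤ × ℤ}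
    (hv : ∃ c ∈ t, inRect X Y c v) (hT : ¬ TV P X Y v) :
    (∀ m ∈ gs X Y t \ WL P X Y, Co (gs X Y t \ WL P X Y) v (eu m) ∧
      Co (gs X Y t \ WL P X Y) v (ev m)) ∧
    ∀ u, (∃ c ∈ t, inRect X Y c u) → ¬ TV P X Y u → Co (gs X Y t \ WL P X Y) v u := by
  obtain ⟨c, hc, hcv⟩ := hv
  have h1 := co_vert hX hY hg hc hcv hT
  refine ⟨fun m hm => ?_, fun u hu hTu => ?_⟩
  · obtain ⟨d, hd, hdm⟩ := mem_gs.1 (mem_sdiff.1 hm).1
    have h2 := (ctr_conn P hX hY hg hc (ht c hc d hd)).2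
    have h3 := co_lab (hg d hd) hdm (Si_sub (P := P) hX hY hd) hm
    exact ⟨h1.symm.trans (h2.trans h3.1), h1.symm.trans (h2.trans h3.2)⟩
  · obtain ⟨d, hd, hdu⟩ := hu
    have h2 := (ctr_conn P hX hY hg hc (ht c hc d hd)).2
    exact h1.symm.trans (h2.trans (co_vert hX hY hg hd hdu hTu))

end Pool.Agent.H90.Q1
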