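import Mathlib
import Pool.Agent.H4.Q1.Wire
import Pool.Agent.H90.Q1.Cells

set_option autoImplicit false
open Finset

/-! Module M5 of Q1: the exterior wire is connected. -/

namespace Pool.Agent.H90.Q1

open Pool.Agent.H75.Perc hiding WL
open Pool.Agent.H75.TwoArm Pool.Agent.H75.Four Pool.Agent.Q1.M4 Pool.Agent.Q1.M5
open Pool.Agent.H99.NC
open Pool.Agent.H4.Q1 (Boxed out_out ot T_out ot_out WL_sub_XW)

variable {P : PType} {X Y : ℤ → ℤ}

variable (P X Y) in
/-- joined by steps between outer vertices -/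
def OutC (u v : ℤ × ℤ) : Prop :=
  Relation.ReflTransGen (fun a b => (∃ j, b = a + dir j) ∧ ¬ inV P.Q X Y a ∧ ¬ inV P.Q X Y b) u v

lemma OutC.symm {u v : ℤ × ℤ} (h : OutC P X Y u v) : OutC P X Y v u := by
  induction h with
  | refl => exact Relation.ReflTransGen.refl
  | @tail a b _ hab ih =>
    obtain ⟨⟨j, rfl⟩, h1, h2⟩ := hab
    refine Relation.ReflTransGen.head ⟨⟨j + 2, ?_⟩, h2, h1⟩ ih
    rw [Pool.Agent.H4.Q1.dir_add_two]
    abel

lemma OutC.refl (u : ℤ × ℤ) : OutC P X Y u u := Relation.ReflTransGen.refl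

lemma gap_mono {X : ℤ → ℤ} (hX : Pool.Agent.H4.Q1.Gap X) : StrictMono X :=
  strictMono_int_of_lt_succ fun i => by have := hX i; omega

lemma OutC.trans {u v w : ℤ × ℤ} (h : OutC P X Y u v) (h' : OutC P X Y v w) : OutC P X Y u w :=
  Relation.ReflTransGen.trans h h'

lemma dirX : dir 0 = (1, 0) := by
  rcases dir_cases 0 with ⟨h, e⟩ | ⟨h, e⟩ | ⟨h, e⟩ | ⟨h, e⟩ <;> first | exact e | (exfalso; omega)

lemma dirY : dir 1 = (0, 1) := by
  rcases dir_cases 1 with ⟨h, e⟩ | ⟨h, e⟩ | ⟨h, e⟩ | ⟨h, e⟩ <;> first | exact e | (exfalso; omega)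

lemma outC_h {a b : ℤ} (n : ℕ) (h : ∀ t, a ≤ t → t ≤ a + n → ¬ inV P.Q X Y (t, b)) :
    OutC P X Y (a, b) (a + n, b) := by
  induction n with
  | zero => simpa using OutC.refl (P := P) (X := X) (Y := Y) (a, b)
  | succ n ih =>
    have h1 := ih (fun t h2 h3 => h t h2 (by push_cast; omega))
    refine Relation.ReflTransGen.tail h1 ⟨⟨0, ?_⟩, h _ (by omega) (by push_cast; omega),
      h _ (by push_cast; omega) (by push_cast; omega)⟩
    rw [dirX]
    push_cast
    refine Prod.ext ?_ ?_ <;> simp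
    ring

lemma outC_v {a b : ℤ} (n : ℕ) (h : ∀ t, b ≤ t → t ≤ b + n → ¬ inV P.Q X Y (a, t)) :
    OutC P X Y (a, b) (a, b + n) := by
  induction n with
  | zero => simpa using OutC.refl (P := P) (X := X) (Y := Y) (a, b)
  | succ n ih =>
    have h1 := ih (fun t h2 h3 => h t h2 (by push_cast; omega))
    refine Relation.ReflTransGen.tail h1 ⟨⟨1, ?_⟩, h _ (by omega) (by push_cast; omega),
      h _ (by push_cast; omega) (by push_cast; omega)⟩
    rw [dirY]
    push_cast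
    refine Prod.ext ?_ ?_ <;> simp
    ring

lemma outC_h' {a a' b : ℤ} (h : ∀ t, min a a' ≤ t → t ≤ max a a' → ¬ inV P.Q X Y (t, b)) :
    OutC P X Y (a, b) (a', b) := by
  rcases le_total a a' with h1 | h1
  · have h2 := outC_h (P := P) (X := X) (Y := Y) (a := a) (b := b) (a' - a).toNat
      (fun t h2 h3 => h t (by omega) (by omega))
    rwa [Int.toNat_of_nonneg (by omega), add_sub_cancel] at h2
  · have h2 := outC_h (P := P) (X := X) (Y := Y) (a := a') (b := b) (a - a').toNat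
      (fun t h2 h3 => h t (by omega) (by omega))
    rw [Int.toNat_of_nonneg (by omega), add_sub_cancel] at h2
    exact h2.symm

lemma outC_v' {a b b' : ℤ} (h : ∀ t, min b b' ≤ t → t ≤ max b b' → ¬ inV P.Q X Y (a, t)) :
    OutC P X Y (a, b) (a, b') := by
  rcases le_total b b' with h1 | h1
  · have h2 := outC_v (P := P) (X := X) (Y := Y) (a := a) (b := b) (b' - b).toNat
      (fun t h2 h3 => h t (by omega) (by omega))
    rwa [Int.toNat_of_nonneg (by omega), add_sub_cancel] at h2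
  · have h2 := outC_v (P := P) (X := X) (Y := Y) (a := a) (b := b') (b - b').toNat
      (fun t h2 h3 => h t (by omega) (by omega))
    rw [Int.toNat_of_nonneg (by omega), add_sub_cancel] at h2
    exact h2.symm

lemma idx_in {X : ℤ → ℤ} (hX : StrictMono X) {c d a : ℤ} (h1 : X c < a) (h2 : a < X (c + 1))
    (h3 : X d ≤ a) (h4 : a ≤ X (d + 1)) : d = c := by
  have a1 : X c < X (d + 1) := by omega
  have a2 : X d < X (c + 1) := by omega
  rw [hX.lt_iff_lt] at a1 a2
  omega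

lemma inV_h (hX : StrictMono X) {c a a' b : ℤ} (h1 : X c < a) (h2 : a < X (c + 1)) (h3 : X c ≤ a')
    (h4 : a' ≤ X (c + 1)) (h : inV P.Q X Y (a, b)) : inV P.Q X Y (a', b) := by
  obtain ⟨d, hd, h5, h6⟩ := h
  have := idx_in hX h1 h2 h5.1 h5.2
  refine ⟨d, hd, ?_, h6⟩
  rw [this]
  exact ⟨h3, h4⟩

lemma inV_v (hY : StrictMono Y) {c a b b' : ℤ} (h1 : Y c < b) (h2 : b < Y (c + 1)) (h3 : Y c ≤ b')
    (h4 : b' ≤ Y (c + 1)) (h : inV P.Q X Y (a, b)) : inV P.Q X Y (a, b') := by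
  obtain ⟨d, hd, h5, h6⟩ := h
  have := idx_in hY h1 h2 h6.1 h6.2
  refine ⟨d, hd, h5, ?_⟩
  rw [this]
  exact ⟨h3, h4⟩

/-- lines with gaps at least `2` cover the plane -/
lemma exists_idx (hX : Pool.Agent.H4.Q1.Gap X) (a : ℤ) : ∃ i, X i ≤ a ∧ a < X (i + 1) := by
  have up : ∀ n : ℕ, X 0 + n ≤ X n := by
    intro n
    induction n with
    | zero => simp
    | succ n ih => have := hX n; push_cast at *; omega
  have dn : ∀ n : ℕ, X (-n) ≤ X 0 - n := by
    intro n
    induction n with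
    | zero => simp
    | succ n ih =>
      have := hX (-n - 1)
      push_cast at *
      rw [show (-(n : ℤ) - 1 + 1) = -n by ring] at this
      rw [show (-((n : ℤ) + 1)) = -n - 1 by ring]
      omega
  obtain ⟨i, h1, h2⟩ := Int.exists_greatest_of_bdd (P := fun i => X i ≤ a)
    ⟨max 0 (a - X 0 + 1), fun z hz => by
      by_contra h
      have h3 : 0 ≤ z := by omega
      have h4 := up z.toNat
      rw [Int.toNat_of_nonneg h3] at h4
      omega⟩
    ⟨-(max 0 (X 0 - a)), by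
      have h4 := dn (max 0 (X 0 - a)).toNat
      rw [Int.toNat_of_nonneg (by omega)] at h4
      omega⟩
  refine ⟨i, h1, ?_⟩
  by_contra h
  have := h2 (i + 1) (by omega)
  omega

/-- an outer vertex is joined to the centre of an outer cell -/
lemma outC_ctr (hX : Pool.Agent.H4.Q1.Gap X) (hY : Pool.Agent.H4.Q1.Gap Y) {u : ℤ × ℤ}
    (hu : ¬ inV P.Q X Y u) : ∃ c, c ∉ P.Q ∧ OutC P X Y u (ctr X Y c) := by
  obtain ⟨c1, h1, h2⟩ := exists_idx hX u.1
  obtain ⟨c2, h3, h4⟩ := exists_idx hY u.2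
  have g1 := hX c1
  have g2 := hY c2
  have hX' : StrictMono X := gap_mono hX
  have hY' : StrictMono Y := gap_mono hY
  refine ⟨(c1, c2), fun hc => hu ⟨_, hc, ⟨h1, h2.le⟩, h3, h4.le⟩, ?_⟩
  have a1 : OutC P X Y (u.1, u.2) (X c1 + 1, u.2) := by
    apply outC_h'
    intro t ht1 ht2 hin
    by_cases h5 : t = u.1
    · rw [h5] at hin; exact hu hin
    · exact hu (inV_h hX' (c := c1) (a := t) (by omega) (by omega) h1 h2.le hin)
  have a0 : ¬ inV P.Q X Y (X c1 + 1, u.2) := fun hin =>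
    hu (inV_h hX' (c := c1) (by omega) (by omega) h1 h2.le hin)
  have a2 : OutC P X Y (X c1 + 1, u.2) (X c1 + 1, Y c2 + 1) := by
    apply outC_v'
    intro t ht1 ht2 hin
    by_cases h5 : t = u.2
    · rw [h5] at hin; exact a0 hin
    · exact a0 (inV_v hY' (c := c2) (b := t) (by omega) (by omega) h3 h4.le hin)
  exact a1.trans a2

lemma outC_hadj (hX : Pool.Agent.H4.Q1.Gap X) (hY : Pool.Agent.H4.Q1.Gap Y) {a b : ℤ}
    (h1 : (a, b) ∉ P.Q) (h2 : (a + 1, b) ∉ P.Q) :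
    OutC P X Y (ctr X Y (a, b)) (ctr X Y (a + 1, b)) := by
  have g1 := hX a
  have g1' := hX (a + 1)
  have g2 := hY b
  have hX' : StrictMono X := gap_mono hX
  have hY' : StrictMono Y := gap_mono hY
  unfold ctr
  apply outC_h'
  intro t ht1 ht2 hin
  obtain ⟨⟨d1, d2⟩, hd, h5, h6⟩ := hin
  simp only at h5 h6 ht1 ht2
  have e2 := idx_in hY' (c := b) (by omega) (by omega) h6.1 h6.2
  have a1 : X a < X (d1 + 1) := by omega
  have a2 : X d1 < X (a + 1 + 1) := by omega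
  rw [hX'.lt_iff_lt] at a1 a2
  rcases (show d1 = a ∨ d1 = a + 1 by omega) with e | e <;> rw [e, e2] at hd
  · exact h1 hd
  · exact h2 hd

lemma outC_vadj (hX : Pool.Agent.H4.Q1.Gap X) (hY : Pool.Agent.H4.Q1.Gap Y) {a b : ℤ}
    (h1 : (a, b) ∉ P.Q) (h2 : (a, b + 1) ∉ P.Q) :
    OutC P X Y (ctr X Y (a, b)) (ctr X Y (a, b + 1)) := by
  have g1 := hX a
  have g1' := hY (b + 1)
  have g2 := hY b
  have hX' : StrictMono X := gap_mono hX
  have hY' : StrictMono Y := gap_mono hY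
  unfold ctr
  apply outC_v'
  intro t ht1 ht2 hin
  obtain ⟨⟨d1, d2⟩, hd, h5, h6⟩ := hin
  simp only at h5 h6 ht1 ht2
  have e2 := idx_in hX' (c := a) (by omega) (by omega) h5.1 h5.2
  have a1 : Y b < Y (d2 + 1) := by omega
  have a2 : Y d2 < Y (b + 1 + 1) := by omega
  rw [hY'.lt_iff_lt] at a1 a2
  rcases (show d2 = b ∨ d2 = b + 1 by omega) with e | e <;> rw [e, e2] at hd
  · exact h1 hd
  · exact h2 hd

lemma outC_adj (hX : Pool.Agent.H4.Q1.Gap X) (hY : Pool.Agent.H4.Q1.Gap Y) {c : Cell} {k : ℤ}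
    (h1 : c ∉ P.Q) (h2 : c + dir k ∉ P.Q) :
    OutC P X Y (ctr X Y c) (ctr X Y (c + dir k)) := by
  obtain ⟨a, b⟩ := c
  rcases dir_cases k with ⟨-, e⟩ | ⟨-, e⟩ | ⟨-, e⟩ | ⟨-, e⟩ <;> rw [e] at h2 ⊢ <;>
    simp only [Prod.mk_add_mk, add_zero] at h2 ⊢
  · exact outC_hadj hX hY h1 h2
  · exact outC_vadj hX hY h1 h2
  · have h := outC_hadj hX hY h2 (by rwa [neg_add_cancel_right])
    rw [neg_add_cancel_right] at h
    exact h.symm
  · have h := outC_vadj hX hY h2 (by rwa [neg_add_cancel_right])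
    rw [neg_add_cancel_right] at h
    exact h.symm

/-- outer vertices are joined in the plane -/
theorem outC_all (hX : Pool.Agent.H4.Q1.Gap X) (hY : Pool.Agent.H4.Q1.Gap Y) {u v : ℤ × ℤ}
    (hu : ¬ inV P.Q X Y u) (hv : ¬ inV P.Q X Y v) : OutC P X Y u v := by
  obtain ⟨c, hc, h1⟩ := outC_ctr hX hY hu
  obtain ⟨d, hd, h2⟩ := outC_ctr hX hY hv
  have h3 := P.good.conn_compl c hc d hd
  refine h1.trans (OutC.trans ?_ h2.symm)
  have key : ∀ e, Relation.ReflTransGen (fun a b => Adj4 a b ∧ b ∈ ((P.Q : Set Cell)ᶜ)) c e →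
      e ∉ P.Q ∧ OutC P X Y (ctr X Y c) (ctr X Y e) := by
    intro e he
    induction he with
    | refl => exact ⟨hc, Relation.ReflTransGen.refl⟩
    | @tail a b _ hab ih =>
      obtain ⟨⟨k, rfl⟩, hb⟩ := hab
      exact ⟨hb, ih.2.trans (outC_adj hX hY ih.1 hb)⟩
  exact (key d h3).2

/-- nearest point of the box -/
def clp (M : ℤ) (u : ℤ × ℤ) : ℤ × ℤ := (max (-M) (min M u.1), max (-M) (min M u.2))

lemma clp_inB {M : ℤ} (hM : 0 ≤ M) (u : ℤ × ℤ) : inB (-M) M (-M) M (clp M u) := by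
  unfold inB clp; simp only; omega

lemma clp_self {M : ℤ} {u : ℤ × ℤ} (h : inB (-M) M (-M) M u) : clp M u = u := by
  unfold inB at h
  unfold clp
  refine Prod.ext ?_ ?_ <;> simp only <;> omega

lemma clp_out {M : ℤ} (hM : Boxed P X Y M) {u : ℤ × ℤ} (hu : ¬ inV P.Q X Y u) :
    ¬ inV P.Q X Y (clp M u) := by
  intro h
  have h1 := hM _ h
  have h2 : clp M u = u := by
    unfold inB clp at h1
    unfold clp
    simp only at h1
    refine Prod.ext ?_ ?_ <;> simp only <;> omega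
  rw [h2] at h
  exact hu h

lemma clp_dir {M : ℤ} (hM : 0 ≤ M) (u : ℤ × ℤ) (j : ℤ) :
    clp M (u + dir j) = clp M u ∨ clp M (u + dir j) = clp M u + dir j := by
  unfold clp
  rcases dir_cases j with ⟨-, e⟩ | ⟨-, e⟩ | ⟨-, e⟩ | ⟨-, e⟩ <;> rw [e] <;>
    simp only [Prod.fst_add, Prod.snd_add, Prod.ext_iff, add_zero, and_true, true_and] <;> omega

/-- **Outer vertices of the box are joined by the exterior wire.** -/
theorem ext_conn (hX : Pool.Agent.H4.Q1.Gap X) (hY : Pool.Agent.H4.Q1.Gap Y) {M : ℤ} (hM0 : 0 ≤ M)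
    (hM : Boxed P X Y M) {u v : ℤ × ℤ} (hu : ¬ inV P.Q X Y u) (hv : ¬ inV P.Q X Y v)
    (hu' : inB (-M) M (-M) M u) (hv' : inB (-M) M (-M) M v) : Co (XW P X Y M) u v := by
  have h := outC_all hX hY hu hv
  have key : ∀ e, OutC P X Y u e → Co (XW P X Y M) (clp M u) (clp M e) := by
    intro e he
    induction he with
    | refl => exact Co.refl _ _
    | @tail a b _ hab ih =>
      obtain ⟨⟨j, rfl⟩, h1, h2⟩ := hab
      refine ih.trans ?_
      rcases clp_dir hM0 a j with h3 | h3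
      · rw [h3]; exact Co.refl _ _
      · rw [h3]
        refine out_out (clp_out hM h1) ?_ (clp_inB hM0 _) ?_
        · rw [← h3]; exact clp_out hM h2
        · rw [← h3]; exact clp_inB hM0 _
  have h1 := key v h
  rwa [clp_self hu', clp_self hv'] at h1

/-- **The exterior wire is connected.** -/
theorem XW_conn (hX : Pool.Agent.H4.Q1.Gap X) (hY : Pool.Agent.H4.Q1.Gap Y) {M : ℤ} (hM0 : 0 ≤ M)
    (hM : Boxed P X Y M) {w : ℤ × ℤ} (hw : w ∈ XW P X Y M) {t : ℤ × ℤ} (ht : ¬ inV P.Q X Y t)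
    (ht' : inB (-M) M (-M) M t) : Co (XW P X Y M) (eu w) t := by
  classical
  have hl := Pool.Agent.H4.Q1.ln_ge (P := P) hX hY 0
  have ho : ¬ inV P.Q X Y (ot P X Y 0 1) := ot_out hX hY 0 (by omega) (by omega)
  have hob : inB (-M) M (-M) M (ot P X Y 0 1) := by
    have h1 := (hM.mem (Pool.Agent.H4.Q1.bp_V (P := P) hX hY 0 (l := 1) (by omega) (by omega))
      ((P.side 0).2 - 1)).2
    unfold inB at h1 ⊢
    unfold ot outer
    omega
  have hT : ∀ v, TV P X Y v → Co (XW P X Y M) v t := fun v hv =>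
    (T_out hX hY hM hv).trans (ext_conn hX hY hM0 hM ho ht hob ht')
  unfold XW at hw
  rcases mem_union.1 hw with h | h
  · exact hT _ (ends_TV (gap_mono hX) (gap_mono hY) h).1
  · obtain ⟨h1, h2⟩ := mem_filter.1 h
    have hb : inB (-M) M (-M) M (eu w) := by
      rw [H75.Four.HOrderAux.mem_BB'] at h1
      unfold inB eu
      simp only
      omega
    rcases h2 with h2 | h2 | h2
    · exact ext_conn hX hY hM0 hM h2.1 ht hb ht'
    · exact hT _ h2.1
    · exact ext_conn hX hY hM0 hM h2.1 ht hb ht'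

end Pool.Agent.H90.Q1
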