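import Mathlib
import Pool.Agent.H90.Q1.Ext
import Pool.Agent.H29.Q1.Corridor
import Pool.Agent.H52.Q1.Side
import Pool.Agent.H44.Q1.C2

set_option autoImplicit false
open Finset

/-! Module M5 of Q1, lower bound: the root edges of flat vertices on the walk of outer corners. -/

namespace Pool.Agent.H90.Q1

open Pool.Agent.H75.Perc hiding WL
open Pool.Agent.H75.TwoArm Pool.Agent.H75.Four Pool.Agent.Q1.M4 Pool.Agent.Q1.M5
open Pool.Agent.H99.NC
open Pool.Agent.H5.Q1 (oc sp slen stp SS gp tn vx_oc sp_len tn_cast walk_first slen_pos)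
open Pool.Agent.H29.Q1 (pcor pos posB lab_oc Tchs InBox NoChord posB_lt pcor_closed free_pos
  lab_free lab_zero fac_corner ends_corner lab_ends head_side pos_succ pos_mono dc_corr gs_eq
  fi_step)
open Pool.Agent.H77.Q1 (Dc Fac Ends lbf)
open Pool.Agent.H4.Q1 (Boxed gs_ends)
open Pool.Agent.H49.Q1 (gs mem_gs gcell)

variable {P : PType} {X Y : ℤ → ℤ}

/-- Number of the root corner of the flat vertex `n`. -/
noncomputable def rt (P : PType) (X Y : ℤ → ℤ) (n : ℕ) : ℕ := pos P X Y n - 1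

lemma pos_flat (hX : StrictMono X) (hY : StrictMono Y) {n : ℕ} (h : FlatV P n) :
    pos P X Y n = pos P X Y (n - 1) + 2 * slen X Y (P.side (n - 1)) ∧
      0 < slen X Y (P.side (n - 1)) := by
  obtain ⟨h1, h2, h3⟩ := h
  obtain ⟨n, rfl⟩ : ∃ n', n = n' + 1 := ⟨n - 1, by omega⟩
  rw [Nat.add_sub_cancel] at h3 ⊢
  have hp := slen_pos hX hY (P.side n)
  rw [pos_succ]
  have h4 := tn_cast (Q := P.Q) (P.side n)
  rw [← Pool.Agent.H29.Q1.side_succ] at h4
  unfold stp
  omega

lemma rt_pos (hX : StrictMono X) (hY : StrictMono Y) {n : ℕ} (h : FlatV P n) :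
    1 ≤ rt P X Y n ∧ rt P X Y n < posB P X Y ∧ rt P X Y n + 1 = pos P X Y n := by
  obtain ⟨h1, h2⟩ := pos_flat hX hY h
  have h3 := pos_mono P X Y (show n ≤ P.m - 1 by have := h.2.1; omega)
  have h4 := posB_lt hX hY P
  unfold rt
  omega

lemma rt_lt (hX : StrictMono X) (hY : StrictMono Y) {n n' : ℕ} (h : FlatV P n) (h' : FlatV P n')
    (hn : n < n') : rt P X Y n < rt P X Y n' := by
  have h1 := rt_pos hX hY h
  have h2 := rt_pos hX hY h'
  have h3 := pos_flat hX hY h'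
  have h4 := pos_mono P X Y (show n ≤ n' - 1 by omega)
  omega

lemma pcor_rt (hX : StrictMono X) (hY : StrictMono Y) {n : ℕ} (h : FlatV P n) :
    pcor P X Y (rt P X Y n) = oc (lv P X Y n) (P.side n).2 := by
  obtain ⟨h1, h2⟩ := pos_flat hX hY h
  have h3 := rt_pos hX hY h
  obtain ⟨h0, -, h4⟩ := h
  have h5 := (walk_first hX hY P.side0 (n - 1) (j := slen X Y (P.side (n - 1)) - 1)
    (by change _ < slen X Y (P.side (n - 1)); omega)).1
  have e1 : SS P.Q X Y P.s0 (n - 1) + (2 * (slen X Y (P.side (n - 1)) - 1) + 1) = rt P X Y n := by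
    change pos P X Y (n - 1) + _ = _
    omega
  rw [e1] at h5
  change pcor P X Y (rt P X Y n) = oc (sp X Y (P.side (n - 1)) _) (P.side (n - 1)).2 at h5
  rw [h5, h4, Nat.sub_add_cancel h2, sp_len hX hY, head_side, Nat.sub_add_cancel h0]
  rfl

lemma lab_rt (hX : StrictMono X) (hY : StrictMono Y) {n : ℕ} (h : FlatV P n) :
    H75.Perc.lab (pcor P X Y (rt P X Y n)) = root (P.side n).2 (lv P X Y n) := by
  rw [pcor_rt hX hY h, lab_oc]

lemma lv_inV {n : ℕ} (hX : StrictMono X) (hY : StrictMono Y) (h : FlatV P n) :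
    inV P.Q X Y (lv P X Y n) := by
  have h1 := H29.Q1.inV_pcor hX hY P (rt P X Y n)
  rwa [pcor_rt hX hY h, vx_oc] at h1

lemma lv_not_TV {n : ℕ} (hX : StrictMono X) (hY : StrictMono Y) (h : FlatV P n) :
    ¬ TV P X Y (lv P X Y n) := by
  obtain ⟨h1, h2, -⟩ := rt_pos hX hY h
  have h3 := H29.Q1.free_not_TV hX hY h1 h2
  rwa [pcor_rt hX hY h, vx_oc] at h3

/-- the outer neighbour of a flat vertex is outside -/
lemma flat_out (hX : Pool.Agent.H4.Q1.Gap X) (hY : Pool.Agent.H4.Q1.Gap Y) {n : ℕ}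
    (h : FlatV P n) : ¬ inV P.Q X Y (outer (P.side n).2 (lv P X Y n)) := by
  obtain ⟨⟨a, b⟩, hab⟩ : ∃ v : ℤ × ℤ, P.vert n = v := ⟨_, rfl⟩
  have hc := H52.Q1.flatV_cells h hab
  have e1 : lv P X Y n = (X a, Y b) := by unfold lv lpt; rw [hab]
  have g1 := hX (a - 1)
  have g2 := hX a
  have g3 := hY (b - 1)
  have g4 := hY b
  rw [sub_add_cancel] at g1 g3
  have hX' : StrictMono X := gap_mono hX
  have hY' : StrictMono Y := gap_mono hY
  rintro ⟨⟨d1, d2⟩, hd, h5, h6⟩
  rw [e1] at h5 h6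
  unfold outer at h5 h6
  rcases hc with ⟨⟨hk, -⟩, -, -, q1, q2⟩ | ⟨⟨hk, -⟩, -, -, q1, q2⟩ | ⟨⟨hk, -⟩, -, -, q1, q2⟩ |
    ⟨⟨hk, -⟩, -, -, q1, q2⟩
  · rw [H52.Q1.dir3 (k := (P.side n).2 - 1) (by omega)] at h5 h6
    simp only [Prod.mk_add_mk, add_zero] at h5 h6
    have x1 : X (a - 1) < X (d1 + 1) := by omega
    have x2 : X d1 < X (a + 1) := by omega
    have y1 : Y (b - 1) < Y (d2 + 1) := by omega
    have y2 : Y d2 < Y b := by omega
    rw [hX'.lt_iff_lt] at x1 x2
    rw [hY'.lt_iff_lt] at y1 y2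
    have e2 : d2 = b - 1 := by omega
    rcases (show d1 = a ∨ d1 = a - 1 by omega) with e | e <;> rw [e, e2] at hd
    · exact q1 hd
    · exact q2 hd
  · rw [H52.Q1.dir0 (k := (P.side n).2 - 1) (by omega)] at h5 h6
    simp only [Prod.mk_add_mk, add_zero] at h5 h6
    have x1 : X a < X (d1 + 1) := by omega
    have x2 : X d1 < X (a + 1) := by omega
    have y1 : Y (b - 1) < Y (d2 + 1) := by omega
    have y2 : Y d2 < Y (b + 1) := by omega
    rw [hX'.lt_iff_lt] at x1 x2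
    rw [hY'.lt_iff_lt] at y1 y2
    have e2 : d1 = a := by omega
    rcases (show d2 = b ∨ d2 = b - 1 by omega) with e | e <;> rw [e, e2] at hd
    · exact q1 hd
    · exact q2 hd
  · rw [H52.Q1.dir1 (k := (P.side n).2 - 1) (by omega)] at h5 h6
    simp only [Prod.mk_add_mk, add_zero] at h5 h6
    have x1 : X (a - 1) < X (d1 + 1) := by omega
    have x2 : X d1 < X (a + 1) := by omega
    have y1 : Y b < Y (d2 + 1) := by omega
    have y2 : Y d2 < Y (b + 1) := by omega
    rw [hX'.lt_iff_lt] at x1 x2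
    rw [hY'.lt_iff_lt] at y1 y2
    have e2 : d2 = b := by omega
    rcases (show d1 = a ∨ d1 = a - 1 by omega) with e | e <;> rw [e, e2] at hd
    · exact q2 hd
    · exact q1 hd
  · rw [H52.Q1.dir2 (k := (P.side n).2 - 1) (by omega)] at h5 h6
    simp only [Prod.mk_add_mk, add_zero] at h5 h6
    have x1 : X (a - 1) < X (d1 + 1) := by omega
    have x2 : X d1 < X a := by omega
    have y1 : Y (b - 1) < Y (d2 + 1) := by omega
    have y2 : Y d2 < Y (b + 1) := by omega
    rw [hX'.lt_iff_lt] at x1 x2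
    rw [hY'.lt_iff_lt] at y1 y2
    have e2 : d1 = a - 1 := by omega
    rcases (show d2 = b ∨ d2 = b - 1 by omega) with e | e <;> rw [e, e2] at hd
    · exact q2 hd
    · exact q1 hd

/-- no edge outside the region has both ends in the region -/
lemma noChord (hX : Pool.Agent.H4.Q1.Gap X) (hY : Pool.Agent.H4.Q1.Gap Y) (Q : Finset Cell) :
    NoChord Q X Y := by
  rintro ⟨a, b⟩ hodd ⟨c, hc, h1, h2⟩ ⟨d, hd, h3, h4⟩
  rw [mem_gs]
  unfold eu at h1 h2
  unfold ev at h3 h4
  simp only at h1 h2 h3 h4 hodd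
  have hX' : StrictMono X := gap_mono hX
  have hY' : StrictMono Y := gap_mono hY
  have x1 := hX (c.1 + 1)
  have y1 := hY (c.2 + 1)
  by_cases h : (a, b) ∈ gcell X Y c
  · exact ⟨c, hc, h⟩
  · refine ⟨d, hd, ?_⟩
    rw [mem_gcell] at h ⊢
    simp only at h ⊢
    rcases Int.emod_two_eq_zero_or_one a with h5 | h5
    · -- vertical edge
      have hb : 2 * (b / 2) = b - 1 := by omega
      have e2 : b / 2 = Y (c.2 + 1) := by omega
      have e3 : Y d.2 ≤ b / 2 := by
        by_contra h6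
        have h7 : Y (c.2 + 1) < Y d.2 := by omega
        rw [hY'.lt_iff_lt] at h7
        have h8 : Y (c.2 + 1 + 1) ≤ Y d.2 := hY'.monotone (by omega)
        omega
      omega
    · have hb : 2 * (a / 2) = a - 1 := by omega
      have e2 : a / 2 = X (c.1 + 1) := by omega
      have e3 : X d.1 ≤ a / 2 := by
        by_contra h6
        have h7 : X (c.1 + 1) < X d.1 := by omega
        rw [hX'.lt_iff_lt] at h7
        have h8 : X (c.1 + 1 + 1) ≤ X d.1 := hX'.monotone (by omega)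
        omega
      omega

lemma inBox_of {M : ℤ} (h : Boxed P X Y M) : InBox P X Y M := by
  intro v hv
  have := h v hv
  unfold inB at this
  exact this

/-- the root label of a flat vertex -/
lemma root_facts (hX : Pool.Agent.H4.Q1.Gap X) (hY : Pool.Agent.H4.Q1.Gap Y) {M : ℤ}
    (hM : Boxed P X Y M) {n : ℕ} (h : FlatV P n) :
    root (P.side n).2 (lv P X Y n) ∉ gs X Y P.Q ∧
    root (P.side n).2 (lv P X Y n) ∉ XW P X Y M ∧
    root (P.side n).2 (lv P X Y n) ∈ H75.TwoArm.BB M ∧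
    ((root (P.side n).2 (lv P X Y n)).1 + (root (P.side n).2 (lv P X Y n)).2) % 2 = 1 ∧
    Fac (root (P.side n).2 (lv P X Y n)) (fi (pcor P X Y (rt P X Y n)))
      (fi (pcor P X Y (rt P X Y n + 1))) ∧
    Ends (root (P.side n).2 (lv P X Y n)) (lv P X Y n) (outer (P.side n).2 (lv P X Y n)) := by
  have hX' : StrictMono X := gap_mono hX
  have hY' : StrictMono Y := gap_mono hY
  have hl := lab_rt hX' hY' h
  obtain ⟨r1, r2, -⟩ := rt_pos hX' hY' h
  have hends : Ends (root (P.side n).2 (lv P X Y n)) (lv P X Y n)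
      (outer (P.side n).2 (lv P X Y n)) := by
    have h1 := ends_corner (pcor P X Y (rt P X Y n))
    have h2 := lab_ends (pcor P X Y (rt P X Y n))
    have h3 : vx (pcor P X Y (rt P X Y n)) = lv P X Y n := by rw [pcor_rt hX' hY' h, vx_oc]
    rw [hl, h3] at h1 h2
    unfold root at h2
    have h4 := add_left_cancel h2
    rwa [← h4] at h1
  have hgs : root (P.side n).2 (lv P X Y n) ∉ gs X Y P.Q := by
    intro h1
    have h2 := gs_ends h1
    have h3 := flat_out hX hY h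
    rcases hends with ⟨-, h4⟩ | ⟨h4, -⟩
    · rw [← h4] at h2; exact h3 h2.2
    · rw [← h4] at h2; exact h3 h2.1
  have hf := lab_free hX' hY' (inBox_of hM) r1 r2 (by rw [hl]; exact hgs)
  rw [hl] at hf
  have hfac := fac_corner (pcor P X Y (rt P X Y n))
  rw [hl] at hfac
  rw [← pcor_closed hX' hY' (i := rt P X Y n) (by rw [hl]; exact hgs)] at hfac
  have hodd := H29.Q1.lab_odd (pcor P X Y (rt P X Y n))
  rw [hl] at hodd
  exact ⟨hgs, hf.2, hf.1, hodd, hfac, hends⟩

lemma not_gs {l : ℤ × ℤ} {M : ℤ} (h1 : l ∉ EL P X Y) (h2 : l ∉ XW P X Y M) : l ∉ gs X Y P.Q :=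
  H29.Q1.not_gs_of h1 h2

/-- closed labels of the walk with equal labels have equal numbers -/
lemma lab_inj' (hX : Pool.Agent.H4.Q1.Gap X) (hY : Pool.Agent.H4.Q1.Gap Y) {i j : ℕ}
    (hi : i < posB P X Y) (hj : j < posB P X Y)
    (hl : H75.Perc.lab (pcor P X Y i) ∉ gs X Y P.Q)
    (h : H75.Perc.lab (pcor P X Y i) = H75.Perc.lab (pcor P X Y j)) : i = j := by
  have hX' : StrictMono X := gap_mono hX
  have hY' : StrictMono Y := gap_mono hY
  have hposN : pos P X Y P.m ≤ pos P X Y P.N := pos_mono P X Y P.hmN.le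
  have hb := posB_lt hX' hY' P
  exact H29.Q1.lab_inj hX' hY' (noChord hX hY _) (by omega) (by omega) hl h

/-- outer faces between two positions are joined by free labels -/
lemma corr (hX : Pool.Agent.H4.Q1.Gap X) (hY : Pool.Agent.H4.Q1.Gap Y) {M M' : ℤ}
    (hM : Boxed P X Y M) (hM' : M ≤ M') {e : ℤ × ℤ} {η : Finset (ℤ × ℤ)} {i n : ℕ} (hin : i ≤ n)
    (hn : n ≤ posB P X Y)
    (h : ∀ j, i ≤ j → j < n → H75.Perc.lab (pcor P X Y j) ∉ gs X Y P.Q →
      H75.Perc.lab (pcor P X Y j) ∉ XW P X Y M →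
      H75.Perc.lab (pcor P X Y j) ≠ e ∧ H75.Perc.lab (pcor P X Y j) ∉ η) :
    Dc M' e η (fi (pcor P X Y i)) (fi (pcor P X Y n)) := by
  have hX' : StrictMono X := gap_mono hX
  have hY' : StrictMono Y := gap_mono hY
  refine dc_corr hin ?_
  intro j hj1 hj2 hj3
  have hj3' : H75.Perc.lab (pcor P X Y j) ∉ gs X Y P.Q := by rw [gs_eq hX' hY']; exact hj3
  have h1 : 1 ≤ j := by
    by_contra h2
    have : j = 0 := by omega
    rw [this] at hj3'
    exact hj3' (lab_zero hX' hY' P)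
  obtain ⟨h4, h5⟩ := lab_free hX' hY' (inBox_of hM) h1 (by omega) hj3'
  refine ⟨?_, h j hj1 hj2 hj3' h5⟩
  change H75.Perc.lab (pcor P X Y j) ∈ _
  unfold H75.TwoArm.BB at h4 ⊢
  rw [mem_Bx] at h4 ⊢
  omega

lemma EL_XW_not {l : ℤ × ℤ} {M : ℤ} (h1 : l ∉ gs X Y P.Q) (h2 : l ∉ XW P X Y M) :
    l ∉ EL P X Y ∪ XW P X Y M := by
  rw [mem_union, not_or]
  exact ⟨fun h => h1 (mem_sdiff.1 h).1, h2⟩

/-- different flat vertices have different root labels -/
lemma root_ne (hX : Pool.Agent.H4.Q1.Gap X) (hY : Pool.Agent.H4.Q1.Gap Y) {M : ℤ}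
    (hM : Boxed P X Y M) {n n' : ℕ} (h : FlatV P n) (h' : FlatV P n') (hn : n < n') :
    root (P.side n).2 (lv P X Y n) ≠ root (P.side n').2 (lv P X Y n') := by
  have hX' : StrictMono X := gap_mono hX
  have hY' : StrictMono Y := gap_mono hY
  intro he
  rw [← lab_rt hX' hY' h, ← lab_rt hX' hY' h'] at he
  have h1 := lab_inj' hX hY (rt_pos hX' hY' h).2.1 (rt_pos hX' hY' h').2.1
    (by rw [lab_rt hX' hY' h]; exact (root_facts hX hY hM h).1) he
  have := rt_lt hX' hY' h h' hn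
  omega

/-- the outer faces after `n1` are joined to the right face of the root of `n1` -/
lemma corr_right (hX : Pool.Agent.H4.Q1.Gap X) (hY : Pool.Agent.H4.Q1.Gap Y) {M M' : ℤ}
    (hM : Boxed P X Y M) (hM' : M ≤ M') {n : ℕ} (h : FlatV P n) {j : ℕ}
    (h1 : rt P X Y n < j) (h2 : j ≤ posB P X Y) :
    Dc M' (root (P.side n).2 (lv P X Y n)) (EL P X Y ∪ XW P X Y M)
      (fi (pcor P X Y (rt P X Y n + 1))) (fi (pcor P X Y j)) := by
  have hX' : StrictMono X := gap_mono hX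
  have hY' : StrictMono Y := gap_mono hY
  refine corr hX hY hM hM' h1 h2 ?_
  intro i hi1 hi2 hi3 hi4
  refine ⟨?_, EL_XW_not hi3 hi4⟩
  rw [← lab_rt hX' hY' h]
  intro he
  have := lab_inj' hX hY (by omega) (rt_pos hX' hY' h).2.1 hi3 he
  omega

/-- **Hypothesis `hSL`**: faces visible from the left face of the root of `i`. -/
theorem left_faces (hX : Pool.Agent.H4.Q1.Gap X) (hY : Pool.Agent.H4.Q1.Gap Y) {M M' : ℤ}
    (hM : Boxed P X Y M) (hM' : M ≤ M') {n1 i : ℕ} (h1 : FlatV P n1) (hi : FlatV P i)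
    (hlt : n1 < i) {g g' : ℤ × ℤ}
    (a1 : Dc M' (root (P.side i).2 (lv P X Y i))
      (insert (root (P.side n1).2 (lv P X Y n1)) (XW P X Y M)) (fi (pcor P X Y (rt P X Y i))) g)
    (a2 : ¬ Dc M' (root (P.side n1).2 (lv P X Y n1)) (EL P X Y ∪ XW P X Y M)
      (fi (pcor P X Y (rt P X Y n1))) g)
    (a3 : ¬ Dc M' (root (P.side i).2 (lv P X Y i))
      (insert (root (P.side n1).2 (lv P X Y n1)) (EL P X Y ∪ XW P X Y M))
      (fi (pcor P X Y (rt P X Y i + 1))) g)
    (hu : IsUnit4 (g' - g)) (a4 : lbf g g' ∉ EL P X Y) (a5 : lbf g g' ∉ XW P X Y M)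
    (a6 : lbf g g' ≠ root (P.side n1).2 (lv P X Y n1))
    (a7 : lbf g g' ≠ root (P.side i).2 (lv P X Y i)) :
    ∃ j, 1 ≤ j ∧ j ≤ rt P X Y i ∧ g = fi (pcor P X Y j) := by
  have hX' : StrictMono X := gap_mono hX
  have hY' : StrictMono Y := gap_mono hY
  obtain ⟨r1, r2, -⟩ := rt_pos hX' hY' h1
  obtain ⟨i1, i2, -⟩ := rt_pos hX' hY' hi
  have hr := rt_lt hX' hY' h1 hi hlt
  have hT0 : Tchs P.Q X Y (fi (pcor P X Y (rt P X Y i))) :=
    ⟨_, H29.Q1.VF_corner _, H29.Q1.inV_pcor hX' hY' P _⟩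
  have hT : Tchs P.Q X Y g := Tchs.dc (inBox_of hM) (subset_insert _ _) hT0 a1
  obtain ⟨j, j1, j2, j3, j4⟩ := free_pos hX' hY' (inBox_of hM) (noChord hX hY _) hT hu
    (not_gs a4 a5) a5
  have hjg : H75.Perc.lab (pcor P X Y j) ∉ gs X Y P.Q := by rw [j3]; exact not_gs a4 a5
  have n1' : j ≠ rt P X Y n1 := by
    rintro rfl
    rw [lab_rt hX' hY' h1] at j3
    exact a6 j3.symm
  have n2' : j ≠ rt P X Y i := by
    rintro rfl
    rw [lab_rt hX' hY' hi] at j3
    exact a7 j3.symm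
  rcases lt_or_gt_of_ne n1' with c1 | c1
  · exfalso
    apply a2
    have key : ∀ n, n ≤ rt P X Y n1 → Dc M' (root (P.side n1).2 (lv P X Y n1))
        (EL P X Y ∪ XW P X Y M) (fi (pcor P X Y (rt P X Y n1))) (fi (pcor P X Y n)) := by
      intro n hn
      refine (corr hX hY hM hM' hn r2.le ?_).symm
      intro k k1 k2 k3 k4
      refine ⟨?_, EL_XW_not k3 k4⟩
      rw [← lab_rt hX' hY' h1]
      intro he
      have := lab_inj' hX hY (by omega) r2 k3 he
      omega
    rcases j4 with e | e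
    · rw [e]; exact key _ (by omega)
    · rw [e]; exact key _ (by omega)
  rcases lt_or_gt_of_ne n2' with c2 | c2
  · rcases j4 with e | e
    · exact ⟨j, j1, by omega, e⟩
    · exact ⟨j + 1, by omega, by omega, e⟩
  · exfalso
    apply a3
    have key : ∀ n, rt P X Y i + 1 ≤ n → n ≤ posB P X Y →
        Dc M' (root (P.side i).2 (lv P X Y i))
        (insert (root (P.side n1).2 (lv P X Y n1)) (EL P X Y ∪ XW P X Y M))
        (fi (pcor P X Y (rt P X Y i + 1))) (fi (pcor P X Y n)) := by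
      intro n hn hn'
      refine corr hX hY hM hM' hn hn' ?_
      intro k k1 k2 k3 k4
      refine ⟨?_, ?_⟩
      · rw [← lab_rt hX' hY' hi]
        intro he
        have := lab_inj' hX hY (by omega) i2 k3 he
        omega
      · rw [mem_insert, not_or]
        refine ⟨?_, EL_XW_not k3 k4⟩
        rw [← lab_rt hX' hY' h1]
        intro he
        have := lab_inj' hX hY (by omega) r2 k3 he
        omega
    rcases j4 with e | e
    · rw [e]; exact key _ (by omega) (by omega)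
    · rw [e]; exact key _ (by omega) (by omega)

/-- **Hypothesis `hSR`**: faces visible from the right face of the root of `i`. -/
theorem right_faces (hX : Pool.Agent.H4.Q1.Gap X) (hY : Pool.Agent.H4.Q1.Gap Y) {M M' : ℤ}
    (hM : Boxed P X Y M) (hM' : M ≤ M') {n1 i : ℕ} (h1 : FlatV P n1) (hi : FlatV P i)
    (hlt : n1 < i) {g g' : ℤ × ℤ}
    (a1 : Dc M' (root (P.side i).2 (lv P X Y i))
      (insert (root (P.side n1).2 (lv P X Y n1)) (XW P X Y M))
      (fi (pcor P X Y (rt P X Y i + 1))) g)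
    (a2 : ¬ Dc M' (root (P.side n1).2 (lv P X Y n1)) (EL P X Y ∪ XW P X Y M)
      (fi (pcor P X Y (rt P X Y n1))) g)
    (a3 : ¬ Dc M' (root (P.side i).2 (lv P X Y i))
      (insert (root (P.side n1).2 (lv P X Y n1)) (EL P X Y ∪ XW P X Y M))
      (fi (pcor P X Y (rt P X Y i))) g)
    (hu : IsUnit4 (g' - g)) (a4 : lbf g g' ∉ EL P X Y) (a5 : lbf g g' ∉ XW P X Y M)
    (a6 : lbf g g' ≠ root (P.side n1).2 (lv P X Y n1))
    (a7 : lbf g g' ≠ root (P.side i).2 (lv P X Y i)) :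
    ∃ j, rt P X Y i < j ∧ j ≤ posB P X Y ∧ g = fi (pcor P X Y j) := by
  have hX' : StrictMono X := gap_mono hX
  have hY' : StrictMono Y := gap_mono hY
  obtain ⟨r1, r2, -⟩ := rt_pos hX' hY' h1
  obtain ⟨i1, i2, -⟩ := rt_pos hX' hY' hi
  have hr := rt_lt hX' hY' h1 hi hlt
  have hT0 : Tchs P.Q X Y (fi (pcor P X Y (rt P X Y i + 1))) :=
    ⟨_, H29.Q1.VF_corner _, H29.Q1.inV_pcor hX' hY' P _⟩
  have hT : Tchs P.Q X Y g := Tchs.dc (inBox_of hM) (subset_insert _ _) hT0 a1
  obtain ⟨j, j1, j2, j3, j4⟩ := free_pos hX' hY' (inBox_of hM) (noChord hX hY _) hT hu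
    (not_gs a4 a5) a5
  have hjg : H75.Perc.lab (pcor P X Y j) ∉ gs X Y P.Q := by rw [j3]; exact not_gs a4 a5
  have n1' : j ≠ rt P X Y n1 := by
    rintro rfl
    rw [lab_rt hX' hY' h1] at j3
    exact a6 j3.symm
  have n2' : j ≠ rt P X Y i := by
    rintro rfl
    rw [lab_rt hX' hY' hi] at j3
    exact a7 j3.symm
  rcases lt_or_gt_of_ne n1' with c1 | c1
  · exfalso
    apply a2
    have key : ∀ n, n ≤ rt P X Y n1 → Dc M' (root (P.side n1).2 (lv P X Y n1))
        (EL P X Y ∪ XW P X Y M) (fi (pcor P X Y (rt P X Y n1))) (fi (pcor P X Y n)) := by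
      intro n hn
      refine (corr hX hY hM hM' hn r2.le ?_).symm
      intro k k1 k2 k3 k4
      refine ⟨?_, EL_XW_not k3 k4⟩
      rw [← lab_rt hX' hY' h1]
      intro he
      have := lab_inj' hX hY (by omega) r2 k3 he
      omega
    rcases j4 with e | e
    · rw [e]; exact key _ (by omega)
    · rw [e]; exact key _ (by omega)
  rcases lt_or_gt_of_ne n2' with c2 | c2
  · exfalso
    apply a3
    have key : ∀ n, rt P X Y n1 < n → n ≤ rt P X Y i →
        Dc M' (root (P.side i).2 (lv P X Y i))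
        (insert (root (P.side n1).2 (lv P X Y n1)) (EL P X Y ∪ XW P X Y M))
        (fi (pcor P X Y (rt P X Y i))) (fi (pcor P X Y n)) := by
      intro n hn hn'
      refine (corr hX hY hM hM' hn' i2.le ?_).symm
      intro k k1 k2 k3 k4
      refine ⟨?_, ?_⟩
      · rw [← lab_rt hX' hY' hi]
        intro he
        have := lab_inj' hX hY (by omega) i2 k3 he
        omega
      · rw [mem_insert, not_or]
        refine ⟨?_, EL_XW_not k3 k4⟩
        rw [← lab_rt hX' hY' h1]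
        intro he
        have := lab_inj' hX hY (by omega) r2 k3 he
        omega
    rcases j4 with e | e
    · rw [e]; exact key _ (by omega) (by omega)
    · rw [e]; exact key _ (by omega) (by omega)
  · rcases j4 with e | e
    · exact ⟨j, by omega, by omega, e⟩
    · exact ⟨j + 1, by omega, by omega, e⟩

end Pool.Agent.H90.Q1
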