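import Mathlib
import Pool.Agent.H90.Q1.Cells
import Pool.Agent.H76.Q1.Comp
import Pool.Agent.H78.Q1.Comp
import Pool.Agent.H77.Q1.Sum
import Pool.Agent.H44.Q1.C2

set_option autoImplicit false
open Finset

/-! Geometry for the lower bound of the `k`-point functions (module M5, C2, LB2): labels of a hull,
tiles next to a hull, arms in half boxes, the law of the hull as a function of the dual cluster. -/

namespace Pool.Agent.H90.Q1

open Pool.Agent.H75.Perc hiding WL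
open Pool.Agent.H49.Q1 hiding sL
open Pool.Agent.H75.TwoArm Pool.Agent.H75.Four Pool.Agent.Q1.M4 Pool.Agent.Q1.M5
open Pool.Agent.H77.Q1 hiding VB
open Pool.Agent.H99.NC
open Pool.Agent.H44.Q1 (LA)

/-! ### Labels of a set of cells -/

section
variable {P : PType} {X Y : ℤ → ℤ} {A : Finset Cell}

lemma LA_sub : LA P X Y A ⊆ EL P X Y := sdiff_subset

lemma EL_sub_gs : EL P X Y ⊆ gs X Y P.Q := sdiff_subset

lemma LA_cell {l : ℤ × ℤ} (h : l ∈ LA P X Y A) {c : Cell} (hc : c ∈ P.Q)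
    (hl : l ∈ gcell X Y c) : c ∈ A := by
  by_contra hA
  exact (mem_sdiff.1 h).2 (mem_gs.2 ⟨c, mem_sdiff.2 ⟨hc, hA⟩, hl⟩)

lemma LA_ex {l : ℤ × ℤ} (h : l ∈ LA P X Y A) : ∃ c ∈ A, l ∈ gcell X Y c := by
  obtain ⟨c, hc, hl⟩ := mem_gs.1 (EL_sub_gs (LA_sub h))
  exact ⟨c, LA_cell h hc hl, hl⟩

lemma not_LA_ex {l : ℤ × ℤ} (h : l ∈ EL P X Y) (h' : l ∉ LA P X Y A) :
    ∃ c ∈ P.Q \ A, l ∈ gcell X Y c := by
  by_contra hc
  exact h' (mem_sdiff.2 ⟨h, fun h1 => hc (mem_gs.1 h1)⟩)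

lemma end_in {c : Cell} {l v : ℤ × ℤ} (hl : l ∈ gcell X Y c) (hv : v = eu l ∨ v = ev l) :
    inRect X Y c v := by
  rcases hv with rfl | rfl
  · exact (ends_in hl).1
  · exact (ends_in hl).2

lemma sV_nb (hX : StrictMono X) (hY : StrictMono Y) {s : Cell × ℤ} {v : ℤ × ℤ}
    (h : sV X Y s v) : inRect X Y (s.1 + dir (s.2 - 1)) v := by
  obtain ⟨⟨c1, c2⟩, k⟩ := s
  unfold sV onCell inB at h
  obtain ⟨h0, h1, h2, h3, h4⟩ := h
  unfold inRect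
  simp only at *
  have a1 := hX (show c1 - 1 < c1 by omega)
  have a2 := hX (show c1 < c1 + 1 by omega)
  have a3 := hX (show c1 + 1 < c1 + 1 + 1 by omega)
  have b1 := hY (show c2 - 1 < c2 by omega)
  have b2 := hY (show c2 < c2 + 1 by omega)
  have b3 := hY (show c2 + 1 < c2 + 1 + 1 by omega)
  rcases dir_cases (k - 1) with ⟨g, e⟩ | ⟨g, e⟩ | ⟨g, e⟩ | ⟨g, e⟩ <;> rw [e] <;>
    simp only [Prod.mk_add_mk, add_zero]
  · have := h2 (by omega)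
    omega
  · have := h3 (by omega)
    omega
  · have := h4 (by omega)
    rw [show c1 + -1 + 1 = c1 by ring, show c1 + -1 = c1 - 1 by ring]
    omega
  · have := h1 (by omega)
    rw [show c2 + -1 + 1 = c2 by ring, show c2 + -1 = c2 - 1 by ring]
    omega

/-- A vertex at a label of the hull and at a label outside the hull lies on an inner side. -/
lemma exists_inner (hX : StrictMono X) (hY : StrictMono Y) (hA : A ⊆ P.Q) {v : ℤ × ℤ}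
    (h1 : ∃ a ∈ LA P X Y A, v = eu a ∨ v = ev a)
    (h2 : ∃ o ∈ EL P X Y \ LA P X Y A, v = eu o ∨ v = ev o) :
    ∃ s : Cell × ℤ, s.1 ∈ A ∧ s.1 + dir (s.2 - 1) ∈ P.Q \ A ∧ sV X Y s v ∧
      inRect X Y (s.1 + dir (s.2 - 1)) v := by
  obtain ⟨a, ha, hva⟩ := h1
  obtain ⟨o, ho, hvo⟩ := h2
  obtain ⟨c, hc, hac⟩ := LA_ex ha
  obtain ⟨ho1, ho2⟩ := mem_sdiff.1 ho
  obtain ⟨d, hd, hod⟩ := not_LA_ex ho1 ho2
  obtain ⟨hd1, hd2⟩ := mem_sdiff.1 hd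
  obtain ⟨s, h3, h4, h5, h6⟩ := H76.Q1.inner_side hX hY P.good hA hc hd1 hd2
    (end_in hac hva) (end_in hod hvo)
  exact ⟨s, h3, mem_sdiff.2 ⟨h4, h5⟩, h6, sV_nb hX hY h6⟩

/-! ### Tiles -/

/-- The tile of the cell `d`. -/
def Tl (P : PType) (d : Cell) : Finset Cell := P.Q.filter (fun e => H78.Q1.tau e = H78.Q1.tau d)

lemma mem_Tl {d e : Cell} : e ∈ Tl P d ↔ e ∈ P.Q ∧ H78.Q1.tau e = H78.Q1.tau d := by
  unfold Tl; rw [mem_filter]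

lemma Tl_self {d : Cell} (hd : d ∈ P.Q) : d ∈ Tl P d := mem_Tl.2 ⟨hd, rfl⟩

lemma Tl_conn (h3 : H78.Q1.G3 P.Q) (d : Cell) : Conn4 (Tl P d : Set Cell) := by
  intro a ha b hb
  have ha' := mem_Tl.1 (mem_coe.1 ha)
  have hb' := mem_Tl.1 (mem_coe.1 hb)
  have h := H78.Q1.tile_conn h3 ha'.1 hb'.1 (hb'.2.trans ha'.2.symm)
  have h' : H78.Q1.Rch ({e | e ∈ P.Q ∧ H78.Q1.tau e = H78.Q1.tau a} : Set Cell) a b := h
  exact h'.mono fun x hx => mem_coe.2 (mem_Tl.2 ⟨hx.1, hx.2.trans ha'.2⟩)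

/-- the labels of a tile off the wired arc -/
noncomputable def QT (P : PType) (X Y : ℤ → ℤ) (d : Cell) : Finset (ℤ × ℤ) :=
  gs X Y (Tl P d) \ WL P X Y

lemma QT_sub {d : Cell} : QT P X Y d ⊆ EL P X Y := by
  intro l hl
  obtain ⟨h1, h2⟩ := mem_sdiff.1 hl
  exact mem_sdiff.2 ⟨gs_mono (filter_subset _ _) h1, h2⟩

/-- labels of a tile outside `A` are not labels of `A` -/
lemma QT_sdiff (hS : H78.Q1.Sat P.Q A) {d : Cell} (hd : d ∈ P.Q) (hdA : d ∉ A) :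
    QT P X Y d \ LA P X Y A = QT P X Y d := by
  rw [Finset.sdiff_eq_self_iff_disjoint, disjoint_left]
  intro l hl hlA
  obtain ⟨e, he, hle⟩ := mem_gs.1 (mem_sdiff.1 hl).1
  obtain ⟨he1, he2⟩ := mem_Tl.1 he
  have heA := LA_cell hlA he1 hle
  exact hdA (hS.sat e heA d hd he2.symm)

/-- removing the labels of `A` and of a tile removes the labels of the union -/
lemma LA_union {t : Finset Cell} {d : Cell} (ht : t ⊆ Tl P d) :
    LA P X Y (A ∪ t) ⊆ LA P X Y A ∪ QT P X Y d := by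
  intro l hl
  have hE := LA_sub hl
  by_cases h : l ∈ LA P X Y A
  · exact mem_union_left _ h
  · obtain ⟨c, hc, hlc⟩ := not_LA_ex hE h
    obtain ⟨hc1, hc2⟩ := mem_sdiff.1 hc
    have hcA := LA_cell hl hc1 hlc
    rcases mem_union.1 hcA with h1 | h1
    · exact absurd h1 hc2
    · exact mem_union_right _ (mem_sdiff.2 ⟨mem_gs.2 ⟨c, ht h1, hlc⟩, (mem_sdiff.1 hE).2⟩)

/-- mesh of the grid: width of a tile and height of a row are at most `w` -/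
def Mesh (P : PType) (X Y : ℤ → ℤ) (w : ℤ) : Prop :=
  (∀ c ∈ P.Q, ∀ e ∈ P.Q, H78.Q1.tau e = H78.Q1.tau c → X (e.1 + 1) - X c.1 ≤ w) ∧
    ∀ c ∈ P.Q, Y (c.2 + 1) - Y c.2 ≤ w

lemma QT_near {w : ℤ} (hm : Mesh P X Y w) {d : Cell} (hd : d ∈ P.Q) {v m : ℤ × ℤ}
    (hv : inRect X Y d v) (hmm : m ∈ QT P X Y d) :
    |m.1 - 2 * v.1| ≤ 2 * (w + 1) - 2 ∧ |m.2 - 2 * v.2| ≤ 2 * (w + 1) - 2 := by
  obtain ⟨e, he, hme⟩ := mem_gs.1 (mem_sdiff.1 hmm).1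
  obtain ⟨he1, he2⟩ := mem_Tl.1 he
  have h1 := hm.1 d hd e he1 he2
  have h2 := hm.1 e he1 d hd he2.symm
  have h3 := hm.2 d hd
  have h4 : e.2 = d.2 := by
    have := congrArg Prod.snd he2
    exact this
  rw [mem_gcell, h4] at hme
  unfold inRect at hv
  rw [abs_le, abs_le]
  omega

/-- **Ties.** For a vertex `v` of the boundary of the hull: either `v` is on the wired arc or the labels
of a tile next to the hull at `v` form a tie. -/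
theorem tie_geo (hX : StrictMono X) (hY : StrictMono Y) (hg : ∀ c ∈ P.Q, Gp X Y c)
    (h3 : H78.Q1.G3 P.Q) (hS : H78.Q1.Sat P.Q A) {w : ℤ} (hm : Mesh P X Y w) {v : ℤ × ℤ}
    (h1 : ∃ a ∈ LA P X Y A, v = eu a ∨ v = ev a)
    (h2 : ∃ o ∈ EL P X Y \ LA P X Y A, v = eu o ∨ v = ev o) (hT : ¬ TV P X Y v) :
    ∃ (s : Cell × ℤ) (d : Cell), s.1 ∈ A ∧ d = s.1 + dir (s.2 - 1) ∧ d ∈ P.Q ∧ d ∉ A ∧
      sV X Y s v ∧ inRect X Y d v ∧ QT P X Y d ⊆ EL P X Y ∧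
      QT P X Y d \ LA P X Y A = QT P X Y d ∧
      (∀ m ∈ QT P X Y d, |m.1 - 2 * v.1| ≤ 2 * (w + 1) - 2 ∧ |m.2 - 2 * v.2| ≤ 2 * (w + 1) - 2) ∧
      (∀ m ∈ QT P X Y d, Co (QT P X Y d) v (eu m)) ∧
      ∀ u, (∃ c ∈ Tl P d, inRect X Y c u) → ¬ TV P X Y u → Co (QT P X Y d) v u := by
  obtain ⟨s, hs1, hs2, hs3, hs4⟩ := exists_inner hX hY hS.sub h1 h2
  obtain ⟨hd1, hd2⟩ := mem_sdiff.1 hs2
  have hc := cells_conn (P := P) hX hY (t := Tl P (s.1 + dir (s.2 - 1)))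
    (fun c hc => hg c (mem_Tl.1 hc).1) (Tl_conn h3 _) ⟨_, Tl_self hd1, hs4⟩ hT
  exact ⟨s, _, hs1, rfl, hd1, hd2, hs3, hs4, QT_sub, QT_sdiff hS hd1 hd2,
    fun m hmm => QT_near hm hd1 hs4 hmm, fun m hmm => (hc.1 m hmm).1, fun u hu hTu => hc.2 u hu hTu⟩

end

/-! ### Arms -/

lemma G'G (S : Sy) (e : ℤ × ℤ) : S.G' (S.G e) = e := S.G.injective (S.GG' _)

/-- the two ends of a label of a half box -/
lemma HB_step {S : Sy} {k : ℤ} {z z' : ℤ × ℤ} (h : IsUnit4 (z' - z)) (hl : z + z' ∈ HB S k) :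
    VB S k z ∧ VB S k z' := by
  obtain ⟨u, rfl⟩ : ∃ u, z = S.g u := ⟨S.g' z, (S.gg' z).symm⟩
  obtain ⟨u', rfl⟩ : ∃ u, z' = S.g u := ⟨S.g' z', (S.gg' z').symm⟩
  rw [S.add, mem_HB, G'G] at hl
  have hu : IsUnit4 (u' - u) := (S.unit u u').2 h
  have h1 := unit_cases hu
  rw [mem_Bx] at hl
  unfold VB inB
  rw [S.g'g, S.g'g]
  simp only [Prod.fst_add, Prod.snd_add] at hl
  omega

/-- labels at the inner vertices belong to the full box -/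
lemma FB_step {S : Sy} {k : ℤ} {z z' : ℤ × ℤ} (h : IsUnit4 (z' - z)) (hz : VI S k z) :
    z + z' ∈ FB S k := by
  obtain ⟨u, rfl⟩ : ∃ u, z = S.g u := ⟨S.g' z, (S.gg' z).symm⟩
  obtain ⟨u', rfl⟩ : ∃ u, z' = S.g u := ⟨S.g' z', (S.gg' z').symm⟩
  have hu : IsUnit4 (u' - u) := (S.unit u u').2 h
  have h1 := unit_cases hu
  rw [S.add, mem_FB, G'G, mem_Bx]
  unfold VI inB at hz
  rw [S.g'g] at hz
  simp only [Prod.fst_add, Prod.snd_add]
  omega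

/-- exit from a half box in a configuration which is local inside -/
lemma arm_exit {S : Sy} {ρ : ℤ} (hρ : 1 ≤ ρ) {K ω' : Finset (ℤ × ℤ)}
    (hloc : ∀ z z', VI S ρ z → Ad K z z' → z + z' ∈ ω' ∩ HB S ρ) {t' : ℤ × ℤ}
    (ht : ¬ VI S ρ t') (h : Co K (S.g (0, 0)) t') : AS S ρ ω' := by
  have h0 : VI S ρ (S.g (0, 0)) := by
    unfold VI
    rw [S.g'g]
    unfold inB
    simp only
    omega
  obtain ⟨z, z', hz, hz', hzz, hcx, -⟩ := exit_co (X := VI S ρ) h h0 ht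
  have hco : ∀ z, CoX K (VI S ρ) (S.g (0, 0)) z → Co (ω' ∩ HB S ρ) (S.g (0, 0)) z := by
    intro z hz
    induction hz with
    | refl => exact Co.refl _ _
    | @tail a b hab hbc ih =>
      exact Relation.ReflTransGen.tail ih ⟨hbc.1.1, hloc a b (CoX.mem hab h0) hbc.1⟩
  have hl := hloc z z' hz hzz
  exact ⟨z', ⟨(HB_step hzz.1 (mem_inter.1 hl).2).2, hz'⟩,
    Relation.ReflTransGen.tail (hco z hcx) ⟨hzz.1, hl⟩⟩

end Pool.Agent.H90.Q1
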