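import Mathlib
import Pool.Agent.H90.Q1.LBStmt

set_option autoImplicit false
open Finset

/-! Module M5 of Q1, lower bound LB2: the finite statement for lattice lines with all gaps large. -/

namespace Pool.Agent.H90.Q1

open Pool.Agent.H75.Perc hiding WL
open Pool.Agent.H75.TwoArm Pool.Agent.H75.Four Pool.Agent.Q1.M4 Pool.Agent.Q1.M5
open Pool.Agent.H49.Q1 (gs Sd HB AS VI VB FB Flat far)
open Pool.Agent.H44.Q1 (Tri Marks Hs GG LA)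
open Pool.Agent.H29.Q1 (pcor posB)
open Pool.Agent.H77.Q1 (Far RAtt)

/-- **(LBglob)** The lower bound at finite level, all gaps of the lattice lines at least `10`. -/
def StLBglob : Prop := ∃ δ : ℝ, 0 < δ ∧ δ < 1 ∧ ∀ (P : PType) (X Y : ℤ → ℤ), Tri P.Q →
  (∀ d, X d + 10 ≤ X (d + 1)) → (∀ d, Y d + 10 ≤ Y (d + 1)) →
  ∀ (n1 : ℕ) (s : Finset ℕ) (K : ℕ → Finset Cell), Marks P n1 s →
  (∀ l ∈ s, K l ∈ Hs P n1) → ∀ (ρ D w : ℤ) (k : ℕ), 1 ≤ ρ → 0 ≤ w → 4 ^ k * (w + 1) ≤ D →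
  Mesh P X Y w →
  (∀ l ∈ s, Flat (Sd (P.side l).2 (lv P X Y l)) (EL P X Y) (WL P X Y) ρ) →
  (∀ l ∈ s, ∀ v, TV P X Y v → ¬ VI (Sd (P.side l).2 (lv P X Y l)) ρ v) →
  (∀ l ∈ s, ∀ l' ∈ s, l ≠ l' → far (lv P X Y l) (lv P X Y l') (2 * ρ + 1)) →
  (∀ l ∈ s, ∀ c ∈ P.Q, c ∉ K l → ∀ v, inRect X Y c v → far (lv P X Y l) v (ρ + D + 3)) →
  (∀ l ∈ s, ∀ v, far (lv P X Y l) v (D + 1) →
    (∀ j, 1 ≤ j → j ≤ rt P X Y l → Far D v (fi (pcor P X Y j))) ∨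
    (∀ j, rt P X Y l < j → j ≤ posB P X Y → Far D v (fi (pcor P X Y j)))) →
  Pr (EL P X Y) (GG P X Y n1 s K) ≤ Pr (EL P X Y) (CT P X Y (lv P X Y n1)) *
    (s.card * (2 * (1 - δ) ^ k) *
      ∏ l ∈ s, Pr (EL P X Y) (AS (Sd (P.side l).2 (lv P X Y l)) ρ))

end Pool.Agent.H90.Q1
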