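import Mathlib
import Pool.Agent.H90.Q1.LBStmt
import Pool.Agent.H76.Q1.C2Fin

set_option autoImplicit false
open Finset

/-! Module M5 of Q1, lower bound LB2: connections through the exterior wire; the law of the maximal
hull is a function of the dual cluster. -/

namespace Pool.Agent.H90.Q1

open Pool.Agent.H75.Perc hiding WL
open Pool.Agent.H75.TwoArm Pool.Agent.H75.Four Pool.Agent.Q1.M4 Pool.Agent.Q1.M5
open Pool.Agent.H49.Q1 (gs)
open Pool.Agent.H44.Q1 (Tri Marks Hs GG LA XA Ah XH)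
open Pool.Agent.H29.Q1 (pcor posB)
open Pool.Agent.H77.Q1 (Far RAtt Joined Dc Fac Ends dual_iff' Tou)
open Pool.Agent.H4.Q1 (Boxed)
open Pool.Agent.H76.Q1 (HullHyp)

variable {P : PType} {X Y : ℤ → ℤ} {M : ℤ}

lemma boxed_pos (hX : StrictMono X) (hY : StrictMono Y) (hM : Boxed P X Y M) : 2 ≤ M := by
  have h1 := hM _ (H29.Q1.inV_pcor hX hY P 0)
  unfold inB at h1
  omega

lemma outer_box (hX : StrictMono X) (hY : StrictMono Y) (hM : Boxed P X Y M) {n : ℕ}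
    (h : FlatV P n) : inB (-M) M (-M) M (outer (P.side n).2 (lv P X Y n)) := by
  have h1 := (hM.mem (lv_inV hX hY h) ((P.side n).2 - 1)).2
  unfold inB at h1 ⊢
  unfold outer
  omega

lemma tv_out (hX : H4.Q1.Gap X) (hY : H4.Q1.Gap Y) (hM : Boxed P X Y M) {z o : ℤ × ℤ}
    (hz : TV P X Y z) (ho : ¬ inV P.Q X Y o) (ho' : inB (-M) M (-M) M o) :
    Co (XW P X Y M) z o := by
  have hM0 : 0 ≤ M := by have := boxed_pos (gap_mono hX) (gap_mono hY) hM; omega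
  have hl := Pool.Agent.H4.Q1.ln_ge (P := P) hX hY 0
  have h1 : ¬ inV P.Q X Y (H4.Q1.ot P X Y 0 1) := H4.Q1.ot_out hX hY 0 (by omega) (by omega)
  have h2 : inB (-M) M (-M) M (H4.Q1.ot P X Y 0 1) := by
    have h1 := (hM.mem (H4.Q1.bp_V (P := P) hX hY 0 (l := 1) (by omega) (by omega))
      ((P.side 0).2 - 1)).2
    unfold inB at h1 ⊢
    unfold H4.Q1.ot outer
    omega
  exact (H4.Q1.T_out hX hY hM hz).trans (ext_conn hX hY hM0 hM h1 ho h2 ho')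

/-- the root vertex is joined to its outer neighbour iff it is joined to the wired arc -/
lemma ct_iff (hX : H4.Q1.Gap X) (hY : H4.Q1.Gap Y) (hM : Boxed P X Y M) {n : ℕ} (h : FlatV P n)
    {ω : Finset (ℤ × ℤ)} (hω : ω ⊆ gs X Y P.Q) :
    Co (ω ∪ XW P X Y M) (lv P X Y n) (outer (P.side n).2 (lv P X Y n)) ↔
      CT P X Y (lv P X Y n) ω := by
  have ho := flat_out hX hY h
  constructor
  · intro h1
    rcases H4.Q1.exit hω (lv_inV (gap_mono hX) (gap_mono hY) h) h1 with h2 | h2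
    · exact absurd h2.1 ho
    · exact h2
  · rintro ⟨z, hz, h1⟩
    refine (h1.mono (union_subset_union subset_rfl H4.Q1.WL_sub_XW)).trans ?_
    exact (tv_out hX hY hM hz ho (outer_box (gap_mono hX) (gap_mono hY) hM h)).mono
      subset_union_right

lemma el_gs : EL P X Y ⊆ gs X Y P.Q := sdiff_subset

/-- two configurations with the same dual cluster of `f1` -/
def SameD (M : ℤ) (e0 f1 : ℤ × ℤ) (η η' : Finset (ℤ × ℤ)) : Prop :=
  ∀ g, Dc M e0 η f1 g ↔ Dc M e0 η' f1 g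

lemma SameD.tou {e0 f1 : ℤ × ℤ} {η η' : Finset (ℤ × ℤ)} (h : SameD M e0 f1 η η')
    (l : ℤ × ℤ) : Tou (Dc M e0 η f1) l ↔ Tou (Dc M e0 η' f1) l := by
  unfold Tou
  constructor
  · rintro ⟨g, g', h1, h2, h3⟩; exact ⟨g, g', h1, h2, (h g).1 h3⟩
  · rintro ⟨g, g', h1, h2, h3⟩; exact ⟨g, g', h1, h2, (h g).2 h3⟩

/-- the situation of `hull_b3_sum` -/
lemma joined_of (hX : H4.Q1.Gap X) (hY : H4.Q1.Gap Y) (hM : Boxed P X Y (M - 1)) {n : ℕ}
    (h : FlatV P n) {ω : Finset (ℤ × ℤ)} (hω : ω ⊆ EL P X Y) (hc : CT P X Y (lv P X Y n) ω) :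
    Joined M (root (P.side n).2 (lv P X Y n)) ω (XW P X Y (M - 1)) (fi (pcor P X Y (rt P X Y n)))
      (fi (pcor P X Y (rt P X Y n + 1))) (lv P X Y n) (outer (P.side n).2 (lv P X Y n)) := by
  obtain ⟨r1, r2, r3, r4, r5, r6⟩ := root_facts hX hY hM h
  refine ⟨r4, r3, union_subset ((hω.trans H4.Q1.EL_sub).trans (H4.Q1.gs_box hM))
    (H4.Q1.XW_box hM), ?_, r5, r6, (ct_iff hX hY hM h (hω.trans el_gs)).2 hc⟩
  rw [mem_union, not_or]
  exact ⟨fun h1 => r1 (el_gs (hω h1)), r2⟩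

lemma ct_same (hX : H4.Q1.Gap X) (hY : H4.Q1.Gap Y) (hM : Boxed P X Y (M - 1)) {n : ℕ}
    (h : FlatV P n) {ω ω1 : Finset (ℤ × ℤ)} (hω : ω ⊆ EL P X Y) (hω1 : ω1 ⊆ EL P X Y)
    (hs : SameD M (root (P.side n).2 (lv P X Y n)) (fi (pcor P X Y (rt P X Y n)))
      (ω1 ∪ XW P X Y (M - 1)) (ω ∪ XW P X Y (M - 1)))
    (hc : CT P X Y (lv P X Y n) ω1) : CT P X Y (lv P X Y n) ω := by
  obtain ⟨r1, r2, r3, r4, r5, r6⟩ := root_facts hX hY hM h
  have key : ∀ ω' : Finset (ℤ × ℤ), ω' ⊆ EL P X Y → (CT P X Y (lv P X Y n) ω' ↔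
      ¬ Dc M (root (P.side n).2 (lv P X Y n)) (ω' ∪ XW P X Y (M - 1))
        (fi (pcor P X Y (rt P X Y n))) (fi (pcor P X Y (rt P X Y n + 1)))) := by
    intro ω' hω'
    rw [← ct_iff hX hY hM h (hω'.trans el_gs), ← dual_iff' r4 r3
      (union_subset ((hω'.trans H4.Q1.EL_sub).trans (H4.Q1.gs_box hM)) (H4.Q1.XW_box hM)) ?_ r5 r6,
      not_not]
    rw [mem_union, not_or]
    exact ⟨fun h1 => r1 (el_gs (hω' h1)), r2⟩
  rw [key _ hω]
  rw [key _ hω1] at hc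
  exact fun h1 => hc ((hs _).2 h1)

/-- **The maximal hull is a function of the dual cluster.** -/
theorem XH_inv (hX : H4.Q1.Gap X) (hY : H4.Q1.Gap Y) (hM : Boxed P X Y (M - 1)) {n1 : ℕ}
    (h1 : FlatV P n1) (hH : HullHyp P X Y n1)
    (hRA : ∀ A ∈ Hs P n1, RAtt M (root (P.side n1).2 (lv P X Y n1)) (EL P X Y) (XW P X Y (M - 1))
      (fi (pcor P X Y (rt P X Y n1 + 1))) (LA P X Y A)) {A : Finset Cell} (hA : A ∈ Hs P n1)
    {ω ω1 : Finset (ℤ × ℤ)} (hω : ω ⊆ EL P X Y) (hω1 : ω1 ⊆ EL P X Y)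
    (hs : SameD M (root (P.side n1).2 (lv P X Y n1)) (fi (pcor P X Y (rt P X Y n1)))
      (ω1 ∪ XW P X Y (M - 1)) (ω ∪ XW P X Y (M - 1)))
    (hx : XH P X Y n1 A ω1) : XH P X Y n1 A ω := by
  have hc1 : CT P X Y (lv P X Y n1) ω1 := hx.1
  have hc := ct_same hX hY hM h1 hω hω1 hs hc1
  have j := joined_of hX hY hM h1 hω hc
  have j1 := joined_of hX hY hM h1 hω1 hc1
  have key : ∀ S ∈ Hs P n1, (XA P X Y n1 S ω1 ↔ XA P X Y n1 S ω) := by
    intro S hS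
    have e : ∀ ω' : Finset (ℤ × ℤ), ω' ⊆ EL P X Y → (XA P X Y n1 S ω' ↔
        Co ((ω' \ LA P X Y S) ∪ XW P X Y (M - 1)) (lv P X Y n1)
          (outer (P.side n1).2 (lv P X Y n1))) := fun ω' hω' =>
      (ct_iff hX hY hM h1 ((sdiff_subset.trans hω').trans el_gs)).symm
    rw [e _ hω, e _ hω1, H77.Q1.avoid_iff j hω (hRA S hS), H77.Q1.avoid_iff j1 hω1 (hRA S hS)]
    exact forall_congr' fun a => forall_congr' fun _ => not_congr (hs.tou a)
  rw [hH.XH_iff hA hω]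
  rw [hH.XH_iff hA hω1] at hx
  exact ⟨(key A hA).1 hx.1, fun S hS hlt h2 => hx.2 S hS hlt ((key S hS).2 h2)⟩

end Pool.Agent.H90.Q1
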