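import Mathlib
import Pool.Agent.H90.Q1.LBInv
import Pool.Agent.H76.Q1.C2Lim
import Pool.Agent.H78.Q1.Wired

set_option autoImplicit false
open Finset

/-! Module M5 of Q1, lower bound LB2: the ties at the boundary of the maximal hull. -/

namespace Pool.Agent.H90.Q1

open Pool.Agent.H75.Perc hiding WL
open Pool.Agent.H75.TwoArm Pool.Agent.H75.Four Pool.Agent.Q1.M4 Pool.Agent.Q1.M5
open Pool.Agent.H49.Q1 (gs onCell)
open Pool.Agent.H44.Q1 (Tri Marks Hs GG LA XA Ah XH)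
open Pool.Agent.H4.Q1 (Boxed)
open Pool.Agent.H76.Q1 (HullHyp)
open Pool.Agent.H78.Q1 (IsHull Sat G3 Rch)

variable {P : PType} {X Y : ℤ → ℤ} {M : ℤ}

lemma hs_hull {n1 : ℕ} {A : Finset Cell} : A ∈ Hs P n1 ↔ IsHull P n1 A := by
  classical
  unfold Hs
  rw [mem_filter, mem_powerset]
  exact ⟨fun h => h.2, fun h => ⟨h.sat.sub, h⟩⟩

lemma Tl_sat (d : Cell) : Sat P.Q (Tl P d) :=
  ⟨filter_subset _ _, fun c hc e he hec => by
    rw [mem_Tl] at hc ⊢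
    exact ⟨he, hec.trans hc.2⟩⟩

/-- adding a tile next to a hull -/
lemma hull_add (hT : Tri P.Q) {n1 : ℕ} {A : Finset Cell} (hA : IsHull P n1 A) {s : Cell × ℤ}
    (hs : s.1 ∈ A) (hd : s.1 + dir (s.2 - 1) ∈ P.Q)
    (h1 : (P.side n1).1 ∉ Tl P (s.1 + dir (s.2 - 1)))
    (h2 : (P.side (n1 - 1)).1 ∉ Tl P (s.1 + dir (s.2 - 1)))
    (h3 : (P.side (P.N - 1)).1 ∉ Tl P (s.1 + dir (s.2 - 1))) :
    IsHull P n1 (A ∪ Tl P (s.1 + dir (s.2 - 1))) := by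
  set d := s.1 + dir (s.2 - 1) with hdd
  refine ⟨hA.sat.union (Tl_sat d), ?_, ?_, ?_, ?_⟩
  · rw [mem_union, not_or]; exact ⟨hA.root, h1⟩
  · rw [mem_union, not_or]; exact ⟨hA.root', h2⟩
  · rw [mem_union, not_or]; exact ⟨hA.mark, h3⟩
  · intro c hc
    rcases mem_union.1 hc with hc | hc
    · obtain ⟨r, r1, r2, r3⟩ := hA.att c hc
      exact ⟨r, r1, r2, r3.mono (by simp)⟩
    · obtain ⟨r, r1, r2, r3⟩ := hA.att s.1 hs
      refine ⟨r, r1, r2, ?_⟩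
      have a1 : Rch (Tl P d : Set Cell) c d := Tl_conn (H76.Q1.Tri.g3 hT) d c hc d (Tl_self hd)
      have a2 : Rch ((A ∪ Tl P d : Finset Cell) : Set Cell) c d := a1.mono (by simp)
      have a3 : Rch ((A ∪ Tl P d : Finset Cell) : Set Cell) d s.1 :=
        H78.Q1.Rch.single (H78.Q1.adj4_symm ⟨s.2 - 1, hdd.symm⟩)
          (mem_coe.2 (mem_union_left _ hs))
      exact (a2.trans a3).trans (r3.mono (by simp))

/-- the centre of a cell is not on the wired arc -/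
lemma ctr_not_TV (hX : H4.Q1.Gap X) (hY : H4.Q1.Gap Y) (c : Cell) : ¬ TV P X Y (ctr X Y c) := by
  rintro ⟨n, -, -, h⟩
  have g1 := hX c.1
  have g2 := hY c.2
  have hX' : StrictMono X := gap_mono hX
  have hY' : StrictMono Y := gap_mono hY
  unfold sV onCell ctr at h
  obtain ⟨-, h1, h2, h3, h4⟩ := h
  simp only at h1 h2 h3 h4
  have h5 : (P.side n).2 % 4 = 0 ∨ (P.side n).2 % 4 = 1 ∨ (P.side n).2 % 4 = 2 ∨
    (P.side n).2 % 4 = 3 := by omega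
  rcases h5 with h5 | h5 | h5 | h5
  · have := h1 h5
    exact lt_of_mono hY' (a := c.2) (b := (P.side n).1.2) (by omega) (by omega)
  · have := h2 h5
    exact lt_of_mono hX' (a := c.1) (b := (P.side n).1.1 + 1) (by omega) (by omega)
  · have := h3 h5
    exact lt_of_mono hY' (a := c.2) (b := (P.side n).1.2 + 1) (by omega) (by omega)
  · have := h4 h5
    exact lt_of_mono hX' (a := c.1) (b := (P.side n).1.1) (by omega) (by omega)

lemma ctr_in (hX : H4.Q1.Gap X) (hY : H4.Q1.Gap Y) (c : Cell) : inRect X Y c (ctr X Y c) := by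
  have g1 := hX c.1
  have g2 := hY c.2
  unfold inRect ctr
  simp only
  omega

lemma gp_of (hX : H4.Q1.Gap X) (hY : H4.Q1.Gap Y) (c : Cell) : Gp X Y c := ⟨hX c.1, hY c.2⟩

/-- a vertex in the middle of a side -/
lemma mid_side (hX : H4.Q1.Gap X) (hY : H4.Q1.Gap Y) (s : Cell × ℤ) :
    ∃ z, sV X Y s z ∧ inRect X Y s.1 z ∧ ¬ IsCor X Y s.1 z := by
  obtain ⟨c, k⟩ := s
  have g1 := hX c.1
  have g2 := hY c.2
  unfold sV onCell inB inRect IsCor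
  simp only
  rcases (show k % 4 = 0 ∨ k % 4 = 1 ∨ k % 4 = 2 ∨ k % 4 = 3 by omega) with h | h | h | h
  · refine ⟨(X c.1 + 1, Y c.2), ⟨?_, fun _ => ?_, fun _ => ?_, fun _ => ?_, fun _ => ?_⟩, ?_, ?_⟩ <;>
      simp only <;> omega
  · refine ⟨(X (c.1 + 1), Y c.2 + 1), ⟨?_, fun _ => ?_, fun _ => ?_, fun _ => ?_, fun _ => ?_⟩,
      ?_, ?_⟩ <;> simp only <;> omega
  · refine ⟨(X c.1 + 1, Y (c.2 + 1)), ⟨?_, fun _ => ?_, fun _ => ?_, fun _ => ?_, fun _ => ?_⟩,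
      ?_, ?_⟩ <;> simp only <;> omega
  · refine ⟨(X c.1, Y c.2 + 1), ⟨?_, fun _ => ?_, fun _ => ?_, fun _ => ?_, fun _ => ?_⟩,
      ?_, ?_⟩ <;> simp only <;> omega

/-- **The ties.** -/
theorem tie_alt (hX : H4.Q1.Gap X) (hY : H4.Q1.Gap Y) (hT : Tri P.Q) (hM : Boxed P X Y (M - 1))
    {n1 : ℕ} (h1 : FlatV P n1) (hH : HullHyp P X Y n1) {A : Finset Cell} (hA : A ∈ Hs P n1)
    {ω : Finset (ℤ × ℤ)} (hω : ω ⊆ EL P X Y) (hx : XH P X Y n1 A ω) {w : ℤ} (hm : Mesh P X Y w)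
    {v : ℤ × ℤ} (hv1 : ∃ a ∈ LA P X Y A, v = eu a ∨ v = ev a)
    (hv2 : ∃ o ∈ EL P X Y \ LA P X Y A, v = eu o ∨ v = ev o) :
    Co (XW P X Y (M - 1)) v (outer (P.side n1).2 (lv P X Y n1)) ∨
    ∃ Q : Finset (ℤ × ℤ), Q ⊆ EL P X Y ∧
      (∀ m ∈ Q, |m.1 - 2 * v.1| ≤ 2 * (w + 1) - 2 ∧ |m.2 - 2 * v.2| ≤ 2 * (w + 1) - 2) ∧
      (Co (Q \ LA P X Y A) v (lv P X Y n1) ∨
        (∃ z, Co (Q \ LA P X Y A) v z ∧
          Co (XW P X Y (M - 1)) z (outer (P.side n1).2 (lv P X Y n1))) ∨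
        (¬ Co ((ω \ (LA P X Y A ∪ Q)) ∪ XW P X Y (M - 1)) (lv P X Y n1)
          (outer (P.side n1).2 (lv P X Y n1)) ∧
          ∀ m ∈ Q \ LA P X Y A, Co (Q \ LA P X Y A) v (eu m))) := by
  have hX' : StrictMono X := gap_mono hX
  have hY' : StrictMono Y := gap_mono hY
  have hAh := hs_hull.1 hA
  have ho := flat_out hX hY h1
  have hob := outer_box hX' hY' hM h1
  by_cases hTv : TV P X Y v
  · exact Or.inl (tv_out hX hY hM hTv ho hob)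
  right
  obtain ⟨s, d, hs1, hd, hdQ, hdA, -, hdv, hQ1, hQ2, hQ3, hQ4, hQ5⟩ :=
    tie_geo hX' hY' (fun c _ => gp_of hX hY c) (H76.Q1.Tri.g3 hT) hAh.sat hm hv1 hv2 hTv
  refine ⟨QT P X Y d, hQ1, hQ3, ?_⟩
  rw [hQ2]
  by_cases c1 : (P.side n1).1 ∈ Tl P d
  · left
    exact hQ5 _ ⟨_, c1, H76.Q1.inRect_lv hX' hY' n1⟩ (lv_not_TV hX' hY' h1)
  by_cases c2 : (P.side (n1 - 1)).1 ∈ Tl P d
  · left
    refine hQ5 _ ⟨_, c2, ?_⟩ (lv_not_TV hX' hY' h1)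
    have h2 := H78.Q1.sV_rect (H78.Q1.sV_head hX' hY' (P.side (n1 - 1)))
    rw [H29.Q1.head_side, Nat.sub_add_cancel h1.1] at h2
    exact h2
  by_cases c3 : (P.side (P.N - 1)).1 ∈ Tl P d
  · right; left
    obtain ⟨z, z1, z2, z3⟩ := mid_side hX hY (P.side (P.N - 1))
    have hmN := P.hmN
    have hm0 := P.hm0
    refine ⟨z, ?_, tv_out hX hY hM ⟨P.N - 1, by omega, by omega, z1⟩ ho hob⟩
    have h2 := hQ5 _ ⟨_, c3, ctr_in hX hY _⟩ (ctr_not_TV hX hY _)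
    refine h2.trans ((co_bd (gp_of hX hY _) z2 z3).mono ?_)
    exact Si_sub hX' hY' c3
  · right; right
    refine ⟨?_, hQ4⟩
    intro hco
    rw [hd] at c1 c2 c3
    have hS := hull_add hT hAh hs1 (by rw [← hd]; exact hdQ) c1 c2 c3
    rw [← hd] at hS
    have hlt : A ⊂ A ∪ Tl P d := by
      refine Finset.ssubset_iff_subset_ne.2 ⟨subset_union_left, fun e => hdA ?_⟩
      rw [e]
      exact mem_union_right _ (Tl_self hdQ)
    refine ((hH.XH_iff hA hω).1 hx).2 _ (hs_hull.2 hS) hlt ?_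
    have h3 := (ct_iff hX hY hM h1 ((sdiff_subset.trans hω).trans el_gs)).1 hco
    exact H76.Q1.CT_mono (sdiff_subset_sdiff subset_rfl (LA_union subset_rfl)) h3

end Pool.Agent.H90.Q1
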