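import Mathlib
import Pool.Agent.H90.Q1.LBTie

set_option autoImplicit false
open Finset

/-! Module M5 of Q1, lower bound LB2: the opened event, arms of the half boxes, distances. -/

namespace Pool.Agent.H90.Q1

open Pool.Agent.H75.Perc hiding WL
open Pool.Agent.H75.TwoArm Pool.Agent.H75.Four Pool.Agent.Q1.M4 Pool.Agent.Q1.M5
open Pool.Agent.H49.Q1 (gs Sd HB AS VI VB FB Flat far FB_Sd Sd_g VI_far far_mono HB_sub_FB
  mem_HB_of mem_gs gcell gcell_sub_gs gs_mono)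
open Pool.Agent.H44.Q1 (Tri Marks Hs GG LA XA Ah XH BA)
open Pool.Agent.H4.Q1 (Boxed)
open Pool.Agent.H99.NC
open Pool.Agent.H77.Q1 (Far lbf)
open Pool.Agent.H78.Q1 (Reg)

variable {P : PType} {X Y : ℤ → ℤ} {M : ℤ}

/-- outer neighbours of flat vertices are joined by the wire -/
lemma outer_conn (hX : H4.Q1.Gap X) (hY : H4.Q1.Gap Y) (hM : Boxed P X Y M) {n n' : ℕ}
    (h : FlatV P n) (h' : FlatV P n') :
    Co (XW P X Y M) (outer (P.side n).2 (lv P X Y n)) (outer (P.side n').2 (lv P X Y n')) := by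
  have hM0 : 0 ≤ M := by have := boxed_pos (gap_mono hX) (gap_mono hY) hM; omega
  exact ext_conn hX hY hM0 hM (flat_out hX hY h) (flat_out hX hY h')
    (outer_box (gap_mono hX) (gap_mono hY) hM h) (outer_box (gap_mono hX) (gap_mono hY) hM h')

/-- **The opened event.** -/
theorem ba_open (hX : H4.Q1.Gap X) (hY : H4.Q1.Gap Y) (hM : Boxed P X Y (M - 1)) {n1 l : ℕ}
    (h1 : FlatV P n1) (hl : FlatV P l) {A : Finset Cell} (hR : Reg P n1 A)
    {ω : Finset (ℤ × ℤ)} (hω : ω ⊆ EL P X Y) (hx : XA P X Y n1 A ω)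
    (hb : BA P X Y A (lv P X Y l) ω) :
    Co ((ω ∩ LA P X Y A) ∪ (EL P X Y \ LA P X Y A) ∪ XW P X Y (M - 1)) (lv P X Y l)
      (outer (P.side l).2 (lv P X Y l)) := by
  have hX' : StrictMono X := gap_mono hX
  have hY' : StrictMono Y := gap_mono hY
  obtain ⟨z, hz, hco⟩ := hb
  have a1 : Co ((ω ∩ LA P X Y A) ∪ (EL P X Y \ LA P X Y A) ∪ XW P X Y (M - 1)) (lv P X Y l) z :=
    hco.mono fun e he => mem_union_left _ (mem_union_left _ he)
  refine a1.trans ?_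
  by_cases hT : TV P X Y z
  · exact (tv_out hX hY hM hT (flat_out hX hY hl) (outer_box hX' hY' hM hl)).mono
      subset_union_right
  have hz2 : inV (P.Q \ A) X Y z := by
    rcases hz with h | h
    · exact absurd h hT
    · exact h
  have a2 : Co (gs X Y (P.Q \ A) \ WL P X Y) z (lv P X Y n1) := by
    refine (cells_conn (P := P) hX' hY' (fun c _ => gp_of hX hY c) hR.conn hz2 hT).2 _ ?_
      (lv_not_TV hX' hY' h1)
    exact ⟨_, hR.hull.root_mem, H76.Q1.inRect_lv hX' hY' n1⟩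
  have s1 : gs X Y (P.Q \ A) \ WL P X Y ⊆ EL P X Y \ LA P X Y A := by
    intro e he
    obtain ⟨e1, e2⟩ := mem_sdiff.1 he
    refine mem_sdiff.2 ⟨mem_sdiff.2 ⟨gs_mono sdiff_subset e1, e2⟩, fun h => ?_⟩
    exact (mem_sdiff.1 h).2 e1
  have a3 : Co ((ω \ LA P X Y A) ∪ XW P X Y (M - 1)) (lv P X Y n1)
      (outer (P.side n1).2 (lv P X Y n1)) :=
    (ct_iff hX hY hM h1 ((sdiff_subset.trans hω).trans el_gs)).2 hx
  refine (a2.mono ?_).trans ((a3.mono ?_).trans ((outer_conn hX hY hM h1 hl).mono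
    subset_union_right))
  · intro e he
    exact mem_union_left _ (mem_union_right _ (s1 he))
  · intro e he
    rcases mem_union.1 he with h | h
    · exact mem_union_left _ (mem_union_right _ (sdiff_subset_sdiff hω subset_rfl h))
    · exact mem_union_right _ h

/-- a label of the half box at an inner vertex -/
lemma VI_lab {S : Sy} {ρ : ℤ} (hρ : 1 ≤ ρ) {z : ℤ × ℤ} (hz : VI S ρ z) :
    ∃ z', IsUnit4 (z' - z) ∧ z + z' ∈ HB S ρ := by
  refine ⟨S.g (S.g' z + (0, 1)), ?_, ?_⟩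
  · have h1 : IsUnit4 ((S.g' z + (0, 1)) - S.g' z) := by
      unfold IsUnit4
      simp [Prod.ext_iff]
    have h3 := (S.unit (S.g' z) (S.g' z + (0, 1))).1 h1
    rwa [S.gg'] at h3
  · have h1 : IsUnit4 (S.g (S.g' z + (0, 1)) - z) := by
      have h1 : IsUnit4 ((S.g' z + (0, 1)) - S.g' z) := by
        unfold IsUnit4
        simp [Prod.ext_iff]
      have h3 := (S.unit (S.g' z) (S.g' z + (0, 1))).1 h1
      rwa [S.gg'] at h3
    refine mem_HB_of h1 ?_ ?_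
    · unfold VI inB at hz
      unfold VB inB
      omega
    · unfold VI inB at hz
      unfold VB inB
      rw [S.g'g]
      simp only [Prod.fst_add, Prod.snd_add]
      omega

lemma VI_inV {k : ℤ} {x z : ℤ × ℤ} {ρ : ℤ} (hρ : 1 ≤ ρ)
    (hF : Flat (Sd k x) (EL P X Y) (WL P X Y) ρ) (hz : VI (Sd k x) ρ z) : inV P.Q X Y z := by
  obtain ⟨z', h1, h2⟩ := VI_lab hρ hz
  obtain ⟨c, hc, hl⟩ := mem_gs.1 (el_gs (hF.2 h2))
  exact ⟨c, hc, (H78.Q1.step_rect h1 hl).1⟩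

/-- **Half boxes inside the hull.** -/
lemma hb_sub_la {k : ℤ} {x : ℤ × ℤ} {ρ D : ℤ} (hρ : 0 ≤ ρ) (hD : 0 ≤ D)
    (hF : Flat (Sd k x) (EL P X Y) (WL P X Y) ρ) {A : Finset Cell}
    (hA : ∀ c ∈ P.Q, c ∉ A → ∀ v, inRect X Y c v → far x v (ρ + D + 3)) :
    HB (Sd k x) ρ ⊆ LA P X Y A := by
  intro e he
  refine mem_sdiff.2 ⟨hF.2 he, fun h => ?_⟩
  obtain ⟨c, hc, hec⟩ := mem_gs.1 h
  obtain ⟨hc1, hc2⟩ := mem_sdiff.1 hc
  have h1 := hA c hc1 hc2 _ (ends_in hec).1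
  have h2 := HB_sub_FB _ hρ he
  rw [FB_Sd, mem_Bx] at h2
  unfold far eu at h1
  simp only at h1
  rcases h1 with h1 | h1
  · rcases abs_cases (x.1 - e.1 / 2) with ⟨h3, -⟩ | ⟨h3, -⟩ <;> omega
  · rcases abs_cases (x.2 - e.2 / 2) with ⟨h3, -⟩ | ⟨h3, -⟩ <;> omega

/-- **The arms.** -/
lemma arm_of (hX : H4.Q1.Gap X) (hY : H4.Q1.Gap Y) {l : ℕ} (hl : FlatV P l) {ρ D : ℤ}
    (hρ : 1 ≤ ρ) (hD : 0 ≤ D)
    (hF : Flat (Sd (P.side l).2 (lv P X Y l)) (EL P X Y) (WL P X Y) ρ)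
    (hTV : ∀ v, TV P X Y v → ¬ VI (Sd (P.side l).2 (lv P X Y l)) ρ v) {A : Finset Cell}
    (hA : ∀ c ∈ P.Q, c ∉ A → ∀ v, inRect X Y c v → far (lv P X Y l) v (ρ + D + 3))
    {ω' : Finset (ℤ × ℤ)} (hω' : ω' ⊆ EL P X Y)
    (h : Co ((ω' ∩ LA P X Y A) ∪ (EL P X Y \ LA P X Y A) ∪ XW P X Y M) (lv P X Y l)
      (outer (P.side l).2 (lv P X Y l))) :
    AS (Sd (P.side l).2 (lv P X Y l)) ρ (ω' ∩ HB (Sd (P.side l).2 (lv P X Y l)) ρ) := by
  classical
  set S := Sd (P.side l).2 (lv P X Y l) with hS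
  have key : AS S ρ ω' := by
    refine arm_exit (K := (ω' ∩ LA P X Y A) ∪ (EL P X Y \ LA P X Y A) ∪ XW P X Y M) hρ ?_
      (t' := outer (P.side l).2 (lv P X Y l)) ?_ ?_
    · intro z z' hz hzz
      obtain ⟨hu, hlab⟩ := hzz
      have hfb := FB_step hu hz
      have hzV : inV P.Q X Y z := VI_inV hρ hF hz
      have hzT : ¬ TV P X Y z := fun h1 => hTV z h1 hz
      rcases mem_union.1 hlab with h1 | h1
      · rcases mem_union.1 h1 with h2 | h2
        · have h3 := (mem_inter.1 h2).1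
          exact mem_inter.2 ⟨h3, (hF.1 _ hfb).1 (hω' h3)⟩
        · exfalso
          obtain ⟨h3, h4⟩ := mem_sdiff.1 h2
          obtain ⟨c, hc, hlc⟩ := not_LA_ex h3 h4
          obtain ⟨hc1, hc2⟩ := mem_sdiff.1 hc
          have h5 := hA c hc1 hc2 z (H78.Q1.step_rect hu hlc).1
          exact VI_far hz (far_mono (by omega) h5)
      · exfalso
        unfold XW at h1
        rcases mem_union.1 h1 with h2 | h2
        · exact (hF.1 _ hfb).2 h2
        · have h3 := (mem_filter.1 h2).2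
          rcases H65.Dom.ends_of (H65.Dom.odd_of_unit hu) hu rfl with ⟨e1, e2⟩ | ⟨e1, e2⟩
          · rw [← e1] at h3
            tauto
          · rw [← e1] at h3
            tauto
    · intro h1
      exact flat_out hX hY hl (VI_inV hρ hF h1)
    · rw [hS, Sd_g]
      exact h
  unfold AS at key ⊢
  rwa [inter_assoc, inter_self]

/-- faces next to a half box are far from vertices far from the box -/
lemma near_HB {k : ℤ} {x v g g' : ℤ × ℤ} {ρ D : ℤ} (hρ : 0 ≤ ρ) (hu : IsUnit4 (g' - g))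
    (hl : lbf g g' ∈ HB (Sd k x) ρ) (hv : far x v (ρ + D + 3)) : Far D v g := by
  have h2 := HB_sub_FB _ hρ hl
  rw [FB_Sd, mem_Bx] at h2
  have h3 := unit_cases hu
  unfold lbf at h2
  unfold far at hv
  unfold Far
  simp only [Prod.fst_sub, Prod.snd_sub, Prod.fst_add, Prod.snd_add] at h2
  rcases hv with hv | hv
  · left
    rcases abs_cases (x.1 - v.1) with ⟨h4, -⟩ | ⟨h4, -⟩ <;>
    rcases abs_cases (g.1 - v.1) with ⟨h5, h6⟩ | ⟨h5, h6⟩ <;> omega
  · right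
    rcases abs_cases (x.2 - v.2) with ⟨h4, -⟩ | ⟨h4, -⟩ <;>
    rcases abs_cases (g.2 - v.2) with ⟨h5, h6⟩ | ⟨h5, h6⟩ <;> omega

/-- half boxes around distant vertices are disjoint -/
lemma HB_disj {k k' : ℤ} {x x' : ℤ × ℤ} {ρ : ℤ} (hρ : 0 ≤ ρ) (h : far x x' (2 * ρ + 1)) :
    Disjoint (HB (Sd k x) ρ) (HB (Sd k' x') ρ) := by
  rw [disjoint_left]
  intro e h1 h2
  have h3 := HB_sub_FB _ hρ h1
  have h4 := HB_sub_FB _ hρ h2
  rw [FB_Sd, mem_Bx] at h3 h4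
  unfold far at h
  rcases h with h | h
  · rcases abs_cases (x.1 - x'.1) with ⟨h5, -⟩ | ⟨h5, -⟩ <;> omega
  · rcases abs_cases (x.2 - x'.2) with ⟨h5, -⟩ | ⟨h5, -⟩ <;> omega

end Pool.Agent.H90.Q1
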