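import Mathlib
import Pool.Agent.H90.Q1.LBOpen
import Pool.Agent.H90.Q1.LBGlob
import Pool.Agent.H76.Q1.Adm
import Pool.Agent.H78.Q1.StLat
import Pool.Agent.H78.Q1.RAtt
import Pool.Agent.H29.Q1.Root

set_option autoImplicit false
open Finset

/-! Module M5 of Q1, lower bound LB2: the finite statement (all gaps large). -/

namespace Pool.Agent.H90.Q1

open Pool.Agent.H75.Perc hiding WL
open Pool.Agent.H75.TwoArm Pool.Agent.H75.Four Pool.Agent.Q1.M4 Pool.Agent.Q1.M5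
open Pool.Agent.H49.Q1 (gs Sd HB AS VI VB FB Flat far FB_Sd Sd_g VI_far far_mono HB_sub_FB
  mem_HB_of mem_gs gcell)
open Pool.Agent.H44.Q1 (Tri Marks Hs GG LA XA Ah XH BA)
open Pool.Agent.H29.Q1 (pcor posB)
open Pool.Agent.H77.Q1 (Far RAtt Dc lbf)
open Pool.Agent.H4.Q1 (Boxed)

lemma gap_two {X : ℤ → ℤ} (h : ∀ d, X d + 10 ≤ X (d + 1)) : H4.Q1.Gap X := fun d => by
  have := h d; omega

lemma gap_loc {Q : Finset Cell} {X Y : ℤ → ℤ} (hX : ∀ d, X d + 10 ≤ X (d + 1))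
    (hY : ∀ d, Y d + 10 ≤ Y (d + 1)) : H44.Q1.Gap Q X Y 2 :=
  ⟨gap_mono (gap_two hX), gap_mono (gap_two hY), fun _ _ d _ _ =>
    ⟨by have := hX d.1; omega, by have := hY d.2; omega⟩⟩

lemma exists_boxed (P : PType) (X Y : ℤ → ℤ) : ∃ M : ℤ, Boxed P X Y (M - 1) := by
  obtain ⟨M, hM⟩ := H29.Q1.exists_inBox P X Y
  refine ⟨M + 1, fun v hv => ?_⟩
  have := hM v hv
  unfold inB
  rw [add_sub_cancel_right]
  exact this

/-- **StLBglob.** -/
theorem stLBglob : StLBglob := by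
  classical
  obtain ⟨δ, hδ0, hδ1, hδ⟩ := H77.Q1.hull_b3_sum
  refine ⟨δ, hδ0, hδ1, ?_⟩
  intro P X Y hT gX gY n1 s K hMk hK ρ D w k hρ hw hkD hmesh hflat hTV hfar hKfar hsep
  have hX : H4.Q1.Gap X := gap_two gX
  have hY : H4.Q1.Gap Y := gap_two gY
  have hX' : StrictMono X := gap_mono hX
  have hY' : StrictMono Y := gap_mono hY
  have hG : H44.Q1.Gap P.Q X Y 2 := gap_loc gX gY
  have h1 : FlatV P n1 := hMk.1
  have hfl : ∀ i ∈ s, FlatV P i := fun i hi => (hMk.2 i hi).1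
  have hlt : ∀ i ∈ s, n1 < i := fun i hi => (hMk.2 i hi).2
  have hH := H78.Q1.stLAT P X Y hT hG n1 h1
  have hADM := H76.Q1.StADM_of H78.Q1.stLAT P X Y hT hG n1 h1
  have hD0 : 0 ≤ D := by
    have h2 : (0 : ℤ) ≤ 4 ^ k * (w + 1) := by positivity
    omega
  obtain ⟨M, hM⟩ := exists_boxed P X Y
  have hM2 := boxed_pos hX' hY' hM
  have hRA : ∀ A ∈ Hs P n1, RAtt M (root (P.side n1).2 (lv P X Y n1)) (EL P X Y)
      (XW P X Y (M - 1)) (fi (pcor P X Y (rt P X Y n1 + 1))) (LA P X Y A) := fun A hA =>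
    H78.Q1.stRAtt P X Y hT hX hY n1 h1 A hA M hM
  obtain ⟨r1, r2, r3, r4, r5, r6⟩ := root_facts hX hY hM h1
  have hAK : ∀ A ∈ (Hs P n1).filter (fun A => ∀ l ∈ s, K l ⊆ A), ∀ l ∈ s, ∀ c ∈ P.Q, c ∉ A →
      ∀ v, inRect X Y c v → far (lv P X Y l) v (ρ + D + 3) := fun A hA l hl c hc hcA v hv =>
    hKfar l hl c hc (fun h => hcA ((mem_filter.1 hA).2 l hl h)) v hv
  have key := hδ ℕ (Finset Cell) s ((Hs P n1).filter (fun A => ∀ l ∈ s, K l ⊆ A)) (LA P X Y)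
    (XH P X Y n1) M (EL P X Y) (XW P X Y (M - 1)) (root (P.side n1).2 (lv P X Y n1))
    (fi (pcor P X Y (rt P X Y n1))) (fi (pcor P X Y (rt P X Y n1 + 1))) (lv P X Y n1)
    (outer (P.side n1).2 (lv P X Y n1)) (fun i => root (P.side i).2 (lv P X Y i))
    (fun i => fi (pcor P X Y (rt P X Y i))) (fun i => fi (pcor P X Y (rt P X Y i + 1)))
    (fun i => lv P X Y i) (fun i => outer (P.side i).2 (lv P X Y i))
    (fun i g => (∃ j, 1 ≤ j ∧ j ≤ rt P X Y i ∧ g = fi (pcor P X Y j)) ∨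
      ∃ g' l, l ∈ s ∧ l ≠ i ∧ IsUnit4 (g' - g) ∧ lbf g g' ∈ HB (Sd (P.side l).2 (lv P X Y l)) ρ)
    (fun i g => (∃ j, rt P X Y i < j ∧ j ≤ posB P X Y ∧ g = fi (pcor P X Y j)) ∨
      ∃ g' l, l ∈ s ∧ l ≠ i ∧ IsUnit4 (g' - g) ∧ lbf g g' ∈ HB (Sd (P.side l).2 (lv P X Y l)) ρ)
    (fun i => HB (Sd (P.side i).2 (lv P X Y i)) ρ)
    (fun i => AS (Sd (P.side i).2 (lv P X Y i)) ρ) (w + 1) D k
    (H4.Q1.EL_box hM) (H4.Q1.XW_box hM) H4.Q1.EL_disj r4 r3 (fun h => r1 (el_gs h)) r2 r5 r6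
    (fun e he => XW_conn hX hY (by omega) hM he (flat_out hX hY h1) (outer_box hX' hY' hM h1))
    (fun A _ => LA_sub) ?_ ?_ ?_ ?_ ?_ ?_ ?_ ?_ ?_ (by omega) hkD ?_
  · refine (Pr_mono ?_).trans (key.trans (le_of_eq ?_))
    · rintro ω hω ⟨g1, g2, g3, g4⟩
      have hAh := hH.mem hω g1
      have hXH : XH P X Y n1 (Ah P X Y n1 ω) ω := ⟨g1, rfl⟩
      have hXA : XA P X Y n1 (Ah P X Y n1 ω) ω := ((hH.XH_iff hAh hω).1 hXH).1
      refine ⟨Ah P X Y n1 ω, mem_filter.2 ⟨hAh, g2⟩, hXH, fun i hi => ?_, fun hall => g4 ?_⟩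
      · exact ba_open hX hY hM h1 (hfl i hi) (hADM _ hAh ω hω hXH) hω hXA (g3 i hi)
      · intro l hl
        exact (ct_iff hX hY hM (hfl l hl) (hω.trans el_gs)).1 (hall l hl)
    · congr 1
      · exact Pr_congr fun ω hω => ct_iff hX hY hM h1 (hω.trans el_gs)
      · congr 1
        refine prod_congr rfl fun i _ => Pr_congr fun ω _ => ?_
        unfold AS
        rw [inter_assoc, inter_self]
  -- hB
  · intro A hA ω hω hx
    have hA1 := (mem_filter.1 hA).1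
    refine ⟨(ct_iff hX hY hM h1 (hω.trans el_gs)).2 hx.1, hRA A hA1, ?_⟩
    exact (ct_iff hX hY hM h1 ((sdiff_subset.trans hω).trans el_gs)).2
      ((hH.XH_iff hA1 hω).1 hx).1
  -- hinv
  · intro A hA ω ω1 hω hω1 hs hx
    exact XH_inv hX hY hM h1 hH hRA (mem_filter.1 hA).1 hω hω1 hs hx
  -- hexcl
  · intro A _ B _ ω _ hxA hxB
    exact hxA.2.symm.trans hxB.2
  -- hroot
  · intro i hi
    obtain ⟨q1, q2, q3, q4, q5, q6⟩ := root_facts hX hY hM (hfl i hi)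
    have hr := rt_lt hX' hY' h1 (hfl i hi) (hlt i hi)
    have hp := rt_pos hX' hY' (hfl i hi)
    exact ⟨q4, q3, fun h => q1 (el_gs h), q2,
      (root_ne hX hY hM h1 (hfl i hi) (hlt i hi)).symm, q5, q6, outer_conn hX hY hM h1 (hfl i hi),
      corr_right hX hY hM (by omega) h1 hr hp.2.1.le,
      corr_right hX hY hM (by omega) h1 (by omega) hp.2.1⟩
  -- hSL
  · intro i hi
    have hp := rt_pos hX' hY' (hfl i hi)
    refine ⟨Or.inl ⟨_, hp.1, le_rfl, rfl⟩, ?_⟩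
    intro g g' b1 b2 b3 b4 b5 b6 b7 b8
    exact Or.inl (left_faces hX hY hM (by omega) h1 (hfl i hi) (hlt i hi) b1 b2 b3 b4 b5 b6 b7 b8)
  -- hSR
  · intro i hi
    have hp := rt_pos hX' hY' (hfl i hi)
    refine ⟨Or.inl ⟨_, lt_add_one _, hp.2.1, rfl⟩, ?_⟩
    intro g g' b1 b2 b3 b4 b5 b6 b7 b8
    exact Or.inl (right_faces hX hY hM (by omega) h1 (hfl i hi) (hlt i hi) b1 b2 b3 b4 b5 b6 b7 b8)
  -- hHd
  · intro i hi j hj hij
    exact HB_disj (by omega) (hfar i hi j hj hij)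
  -- hHS
  · intro i hi j hj hij g g' b1 b2
    exact ⟨Or.inr ⟨g', j, hj, hij.symm, b1, b2⟩, Or.inr ⟨g', j, hj, hij.symm, b1, b2⟩⟩
  -- hgeo
  · intro A hA ω hω hx i hi
    have hsub : HB (Sd (P.side i).2 (lv P X Y i)) ρ ⊆ LA P X Y A :=
      hb_sub_la (by omega) hD0 (hflat i hi) (hAK A hA i hi)
    refine ⟨hsub, ?_, ?_⟩
    · have hVI : VI (Sd (P.side i).2 (lv P X Y i)) ρ (lv P X Y i) := by
        have h2 := (Sd (P.side i).2 (lv P X Y i)).g'g (0, 0)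
        rw [Sd_g] at h2
        unfold VI
        rw [h2]
        unfold inB
        simp only
        omega
      obtain ⟨z', z1, z2⟩ := VI_lab hρ hVI
      refine ⟨_, hsub z2, ?_⟩
      rcases H65.Dom.ends_of (H65.Dom.odd_of_unit z1) z1 rfl with ⟨e1, e2⟩ | ⟨e1, e2⟩
      · exact Or.inl e1
      · exact Or.inr e1
    · intro ω' hω' h2
      exact arm_of hX hY (hfl i hi) hρ hD0 (hflat i hi) (hTV i hi) (hAK A hA i hi) hω' h2
  -- htie
  · intro A hA ω hω hx i hi v _ b2 b3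
    refine ⟨tie_alt hX hY hT hM h1 hH (mem_filter.1 hA).1 hω hx hmesh b2 b3, ?_⟩
    obtain ⟨o, ho, hvo⟩ := b3
    obtain ⟨ho1, ho2⟩ := mem_sdiff.1 ho
    obtain ⟨c, hc, hoc⟩ := not_LA_ex ho1 ho2
    obtain ⟨hc1, hc2⟩ := mem_sdiff.1 hc
    have hcv : inRect X Y c v := end_in hoc hvo
    have hfarv : ∀ l ∈ s, far (lv P X Y l) v (ρ + D + 3) := fun l hl =>
      hAK A hA l hl c hc1 hc2 v hcv
    rcases hsep i hi v (far_mono (by omega) (hfarv i hi)) with h2 | h2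
    · left
      rintro g (⟨j, j1, j2, rfl⟩ | ⟨g', l, l1, l2, l3, l4⟩)
      · exact h2 j j1 j2
      · exact near_HB (by omega) l3 l4 (hfarv l l1)
    · right
      rintro g (⟨j, j1, j2, rfl⟩ | ⟨g', l, l1, l2, l3, l4⟩)
      · exact h2 j j1 j2
      · exact near_HB (by omega) l3 l4 (hfarv l l1)

end Pool.Agent.H90.Q1
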