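import Mathlib
import Pool.Agent.H90.Q1.LBFin
import Pool.Agent.H44.Q1.LBLoc
import Pool.Agent.H29.Q1.SepF
import Pool.Agent.H29.Q1.LB2

set_option autoImplicit false

/-! Module M5 of Q1, step C2: the lower bound LB2 of the `k`-point functions. -/

namespace Pool.Agent.H90.Q1

/-- **StLBfin.** -/
theorem stLBfin : StLBfin := H44.Q1.stLBfin_of stLBglob

/-- **StLB2.** -/
theorem stLB2 (pz : ℝ → ℝ) (hpz : Pool.Agent.Q1.M5.StPz pz) : H44.Q1.StLB2 pz :=
  H29.Q1.stLB2_of pz hpz stLBfin H29.Q1.stSepF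

end Pool.Agent.H90.Q1
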